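import Mathlib

set_option autoImplicit false
open Matrix Finset MeasureTheory

namespace Pool.Agent.Helper630.Eta

/-- Andreief's identity on the line -/
lemma andreief {n : ℕ} (F G : Fin n → ℝ → ℝ) (hint : ∀ i j, Integrable (fun x => F i x * G j x)) :
    Integrable (fun x : Fin n → ℝ => (Matrix.of fun i j => F i (x j)).det *
      (Matrix.of fun i j => G i (x j)).det) ∧
    ∫ x : Fin n → ℝ, (Matrix.of fun i j => F i (x j)).det *
      (Matrix.of fun i j => G i (x j)).det =
      n.factorial * (Matrix.of fun i j => ∫ x, F i x * G j x).det := by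
  have hI0 : ∀ τ σ : Equiv.Perm (Fin n), Integrable
      (fun x : Fin n → ℝ => ∏ j, (F (τ j) (x j) * G (σ j) (x j))) := by
    intro τ σ
    exact Integrable.fintype_prod (f := fun j x => F (τ j) x * G (σ j) x)
      (μ := fun _ : Fin n => (volume : Measure ℝ)) (fun j => hint (τ j) (σ j))
  have hI : ∀ τ σ : Equiv.Perm (Fin n), Integrable (fun x : Fin n → ℝ =>
      (((Equiv.Perm.sign τ : ℤ) : ℝ) * ((Equiv.Perm.sign σ : ℤ) : ℝ)) *
        ∏ j, (F (τ j) (x j) * G (σ j) (x j))) := fun τ σ => (hI0 τ σ).const_mul _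
  have hI2 : ∀ τ : Equiv.Perm (Fin n), Integrable (fun x : Fin n → ℝ =>
      ∑ σ : Equiv.Perm (Fin n), (((Equiv.Perm.sign τ : ℤ) : ℝ) * ((Equiv.Perm.sign σ : ℤ) : ℝ)) *
        ∏ j, (F (τ j) (x j) * G (σ j) (x j))) :=
    fun τ => integrable_finsetSum _ fun σ _ => hI τ σ
  have h1 : ∀ x : Fin n → ℝ, (Matrix.of fun i j => F i (x j)).det *
      (Matrix.of fun i j => G i (x j)).det =
      ∑ τ : Equiv.Perm (Fin n), ∑ σ : Equiv.Perm (Fin n),
        (((Equiv.Perm.sign τ : ℤ) : ℝ) * ((Equiv.Perm.sign σ : ℤ) : ℝ)) *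
          ∏ j, (F (τ j) (x j) * G (σ j) (x j)) := by
    intro x
    rw [det_apply', det_apply', Finset.sum_mul_sum]
    refine Finset.sum_congr rfl fun τ _ => Finset.sum_congr rfl fun σ _ => ?_
    rw [Finset.prod_mul_distrib]
    simp only [Matrix.of_apply]
    ring
  have h2 : ∀ τ : Equiv.Perm (Fin n), ∫ x : Fin n → ℝ, ∑ σ : Equiv.Perm (Fin n),
      (((Equiv.Perm.sign τ : ℤ) : ℝ) * ((Equiv.Perm.sign σ : ℤ) : ℝ)) *
        ∏ j, (F (τ j) (x j) * G (σ j) (x j)) =
      (Matrix.of fun i j => ∫ x, F i x * G j x).det := by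
    intro τ
    rw [integral_finsetSum _ (fun σ _ => hI τ σ)]
    have h4 : ∀ σ : Equiv.Perm (Fin n), ∫ x : Fin n → ℝ,
        (((Equiv.Perm.sign τ : ℤ) : ℝ) * ((Equiv.Perm.sign σ : ℤ) : ℝ)) *
        ∏ j, (F (τ j) (x j) * G (σ j) (x j)) =
        ((Equiv.Perm.sign τ : ℤ) : ℝ) * (((Equiv.Perm.sign σ : ℤ) : ℝ) *
          ∏ j, (∫ x, F (τ j) x * G (σ j) x)) := by
      intro σ
      rw [integral_const_mul]
      have := integral_fintype_prod_volume_eq_prod (𝕜 := ℝ)
        (fun (j : Fin n) x => F (τ j) x * G (σ j) x)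
      rw [this, mul_assoc]
    rw [Finset.sum_congr rfl fun σ _ => h4 σ, ← Finset.mul_sum]
    have h5 : ∑ σ : Equiv.Perm (Fin n), ((Equiv.Perm.sign σ : ℤ) : ℝ) *
        ∏ j, (∫ x, F (τ j) x * G (σ j) x) =
        ((Equiv.Perm.sign τ : ℤ) : ℝ) * (Matrix.of fun i j => ∫ x, F i x * G j x).det := by
      have h6 := Matrix.det_permute τ (Matrix.of fun i j => ∫ x, F i x * G j x)
      rw [← h6, ← det_transpose, det_apply']
      rfl
    rw [h5, ← mul_assoc]
    have h7 : ((Equiv.Perm.sign τ : ℤ) : ℝ) * ((Equiv.Perm.sign τ : ℤ) : ℝ) = 1 := by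
      rcases Int.units_eq_one_or (Equiv.Perm.sign τ) with h | h <;> rw [h] <;> simp
    rw [h7, one_mul]
  refine ⟨?_, ?_⟩
  · exact (integrable_finsetSum _ fun τ _ => hI2 τ).congr
      (Filter.Eventually.of_forall fun x => (h1 x).symm)
  · rw [integral_congr_ae (Filter.Eventually.of_forall h1),
      integral_finsetSum _ (fun τ _ => hI2 τ), Finset.sum_congr rfl fun τ _ => h2 τ,
      Finset.sum_const, Finset.card_univ, Fintype.card_perm, nsmul_eq_mul, Fintype.card_fin]

/-- Andreief's identity twice -/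
lemma andreief2 {n : ℕ} (F : Fin n → ℝ → ℝ) (K : ℝ → ℝ → ℝ)
    (h1 : ∀ t j, Integrable (fun u => K t u * F j u))
    (h2 : ∀ i j, Integrable (fun t => F i t * ∫ u, K t u * F j u)) :
    (∀ t : Fin n → ℝ, Integrable (fun u : Fin n → ℝ => (Matrix.of fun i j => F i (t j)).det *
      ((Matrix.of fun i j => K (t i) (u j)).det * (Matrix.of fun i j => F i (u j)).det))) ∧
    Integrable (fun t : Fin n → ℝ => ∫ u : Fin n → ℝ, (Matrix.of fun i j => F i (t j)).det *
      ((Matrix.of fun i j => K (t i) (u j)).det * (Matrix.of fun i j => F i (u j)).det)) ∧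
    ∫ t : Fin n → ℝ, ∫ u : Fin n → ℝ, (Matrix.of fun i j => F i (t j)).det *
      ((Matrix.of fun i j => K (t i) (u j)).det * (Matrix.of fun i j => F i (u j)).det) =
      (n.factorial : ℝ) ^ 2 * (Matrix.of fun i j => ∫ t, F i t * ∫ u, K t u * F j u).det := by
  have a1 : ∀ t : Fin n → ℝ, _ := fun t => andreief (fun i u => K (t i) u) F
    (fun i j => h1 (t i) j)
  have a2 := andreief F (fun j t => ∫ u, K t u * F j u) h2
  have e : ∀ t : Fin n → ℝ, ∫ u : Fin n → ℝ, (Matrix.of fun i j => F i (t j)).det *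
      ((Matrix.of fun i j => K (t i) (u j)).det * (Matrix.of fun i j => F i (u j)).det) =
      (n.factorial : ℝ) * ((Matrix.of fun i j => F i (t j)).det *
        (Matrix.of fun i j => ∫ u, K (t j) u * F i u).det) := by
    intro t
    rw [integral_const_mul, (a1 t).2]
    have : (Matrix.of fun i j => ∫ u, K (t i) u * F j u).det =
        (Matrix.of fun i j => ∫ u, K (t j) u * F i u).det := by
      rw [← det_transpose]; rfl
    rw [this]; ring
  refine ⟨fun t => (a1 t).1.const_mul _, ?_, ?_⟩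
  · simp only [e]
    exact a2.1.const_mul _
  · simp only [e]
    rw [integral_const_mul, a2.2]
    ring

end Pool.Agent.Helper630.Eta
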