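import Mathlib

set_option autoImplicit false
open Matrix Finset

namespace Pool.Agent.Helper630.Eta

/-- one elimination step for the Cauchy determinant -/
lemma cauchy_step {n : ℕ} (p q : Fin (n + 1) → ℝ) (h : ∀ i j, p i + q j ≠ 0) :
    (Matrix.of fun i j : Fin (n + 1) => (p i + q j)⁻¹).det =
      (p 0 + q 0)⁻¹ * ((∏ i : Fin n, ((p i.succ - p 0) / (p i.succ + q 0))) *
        ((∏ j : Fin n, ((q j.succ - q 0) / (p 0 + q j.succ))) *
          (Matrix.of fun i j : Fin n => (p i.succ + q j.succ)⁻¹).det)) := by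
  set B : Matrix (Fin (n + 1)) (Fin (n + 1)) ℝ := Matrix.of fun i j =>
    if i = 0 then (p 0 + q j)⁻¹ else
      (p i - p 0) / (p i + q 0) * ((p i + q j)⁻¹ * ((q j - q 0) / (p 0 + q j))) with hB
  have h1 : (Matrix.of fun i j : Fin (n + 1) => (p i + q j)⁻¹).det = B.det := by
    refine Matrix.det_eq_of_forall_row_eq_smul_add_const
      (fun i => if i = 0 then 0 else (p 0 + q 0) / (p i + q 0)) 0 (by simp) ?_
    intro i j
    by_cases hi : i = 0
    · subst hi; simp [hB]
    · simp only [hB, Matrix.of_apply, hi, if_false, if_true]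
      have a1 := h i j
      have a2 := h i 0
      have a3 := h 0 j
      field_simp
      ring
  rw [h1, Matrix.det_succ_column_zero]
  rw [Fin.sum_univ_succ]
  have h2 : ∀ i : Fin n, B i.succ 0 = 0 := by
    intro i
    simp [hB, Fin.succ_ne_zero]
  simp only [h2, mul_zero, zero_mul, Finset.sum_const_zero, add_zero]
  have h3 : B 0 0 = (p 0 + q 0)⁻¹ := by simp [hB]
  rw [h3]
  simp only [Fin.val_zero, pow_zero, one_mul]
  congr 1
  have h4 : B.submatrix (Fin.succAbove 0) Fin.succ =
      Matrix.diagonal (fun i : Fin n => (p i.succ - p 0) / (p i.succ + q 0)) *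
      (Matrix.of fun i j : Fin n => (p i.succ + q j.succ)⁻¹) *
      Matrix.diagonal (fun j : Fin n => (q j.succ - q 0) / (p 0 + q j.succ)) := by
    ext i j
    rw [Matrix.mul_diagonal, Matrix.diagonal_mul]
    simp [hB, Fin.succ_ne_zero, mul_assoc]
  rw [h4, Matrix.det_mul, Matrix.det_mul, Matrix.det_diagonal, Matrix.det_diagonal]
  ring

/-- the Cauchy determinant -/
lemma cauchy_det : ∀ (n : ℕ) (p q : Fin n → ℝ), (∀ i j, p i + q j ≠ 0) →
    (Matrix.of fun i j : Fin n => (p i + q j)⁻¹).det =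
      (∏ i : Fin n, ∏ j ∈ Ioi i, ((p j - p i) * (q j - q i))) * ∏ i : Fin n, ∏ j : Fin n, (p i + q j)⁻¹ := by
  intro n
  induction n with
  | zero => intro p q _; simp
  | succ n ih =>
    intro p q h
    rw [cauchy_step p q h, ih _ _ (fun i j => h _ _)]
    have e0 : ∏ i : Fin (n + 1), ∏ j ∈ Ioi i, ((p j - p i) * (q j - q i)) =
        ((∏ j : Fin n, (p j.succ - p 0)) * ∏ j : Fin n, (q j.succ - q 0)) *
        ∏ i : Fin n, ∏ j ∈ Ioi i, ((p j.succ - p i.succ) * (q j.succ - q i.succ)) := by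
      rw [Fin.prod_univ_succ]
      congr 1
      · rw [← Finset.prod_mul_distrib, Fin.prod_Ioi_zero]
      · refine Finset.prod_congr rfl fun i _ => ?_
        rw [Fin.prod_Ioi_succ]
    have e3 : ∏ i : Fin (n + 1), ∏ j : Fin (n + 1), (p i + q j)⁻¹ =
        ((p 0 + q 0)⁻¹ * ∏ j : Fin n, (p 0 + q j.succ)⁻¹) *
        ((∏ i : Fin n, (p i.succ + q 0)⁻¹) * ∏ i : Fin n, ∏ j : Fin n, (p i.succ + q j.succ)⁻¹) := by
      rw [Fin.prod_univ_succ, Fin.prod_univ_succ, ← Finset.prod_mul_distrib]
      congr 1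
      refine Finset.prod_congr rfl fun i _ => ?_
      rw [Fin.prod_univ_succ]
    rw [e0, e3]
    simp only [div_eq_mul_inv, Finset.prod_mul_distrib]
    ring

/-- the Fermi function -/
noncomputable def fer (v : ℝ) : ℝ := (Real.exp v + 1)⁻¹

/-- the product formula for the determinant of the kernel `1 / (e ^ (t + u) + 1)` -/
lemma fer_det {n : ℕ} (t u : Fin n → ℝ) :
    (Matrix.of fun i j : Fin n => fer (t i + u j)).det =
      (∏ i : Fin n, ∏ j ∈ Ioi i, ((Real.exp (t j) - Real.exp (t i)) *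
        (Real.exp (-u j) - Real.exp (-u i)))) *
      ((∏ i : Fin n, ∏ j : Fin n, (Real.exp (t i) + Real.exp (-u j))⁻¹) *
        ∏ j : Fin n, Real.exp (-u j)) := by
  have h : (Matrix.of fun i j : Fin n => fer (t i + u j)) =
      (Matrix.of fun i j : Fin n => (Real.exp (t i) + Real.exp (-u j))⁻¹) *
        Matrix.diagonal (fun j => Real.exp (-u j)) := by
    ext i j
    rw [Matrix.mul_diagonal]
    simp only [Matrix.of_apply, fer]
    have h1 : 0 < Real.exp (t i) := Real.exp_pos _
    have h2 : 0 < Real.exp (-u j) := Real.exp_pos _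
    have h3 : Real.exp (t i + u j) * Real.exp (-u j) = Real.exp (t i) := by
      rw [← Real.exp_add]; congr 1; ring
    rw [inv_eq_iff_eq_inv, mul_inv, inv_inv, ← div_eq_mul_inv, eq_div_iff h2.ne']
    linarith
  rw [h, Matrix.det_mul, Matrix.det_diagonal, cauchy_det]
  · ring
  · intro i j
    positivity

end Pool.Agent.Helper630.Eta
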