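import Pool.Agent.Helper630_Eta.Cauchy

set_option autoImplicit false
open Matrix Finset

namespace Pool.Agent.Helper630.Eta

lemma sinh_mul_ge {μ z : ℝ} (hμ : 1 ≤ μ) (hz : 0 ≤ z) : μ * Real.sinh z ≤ Real.sinh (μ * z) := by
  have hconv : ConvexOn ℝ (Set.Ici (0 : ℝ)) Real.sinh := by
    refine MonotoneOn.convexOn_of_deriv (convex_Ici 0) Real.continuous_sinh.continuousOn
      Real.differentiable_sinh.differentiableOn ?_
    intro x hx y hy hxy
    rw [interior_Ici] at hx hy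
    rw [Real.deriv_sinh]
    rw [Real.cosh_le_cosh, abs_of_pos hx, abs_of_pos hy]
    exact hxy
  have hμ0 : 0 < μ := by linarith
  have h := hconv.2 (show (0 : ℝ) ∈ Set.Ici (0 : ℝ) from Set.mem_Ici.2 le_rfl)
    (show μ * z ∈ Set.Ici (0 : ℝ) from mul_nonneg hμ0.le hz)
    (show (0 : ℝ) ≤ 1 - 1 / μ by rw [sub_nonneg, div_le_one hμ0]; exact hμ)
    (show (0 : ℝ) ≤ 1 / μ by positivity) (by ring)
  simp only [smul_eq_mul, mul_zero, zero_add, Real.sinh_zero] at h
  have e : 1 / μ * (μ * z) = z := by field_simp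
  rw [e] at h
  calc μ * Real.sinh z ≤ μ * (1 / μ * Real.sinh (μ * z)) := mul_le_mul_of_nonneg_left h hμ0.le
    _ = Real.sinh (μ * z) := by field_simp

lemma exp_sub_exp_abs (a b : ℝ) :
    |Real.exp a - Real.exp b| = 2 * Real.exp ((a + b) / 2) * Real.sinh (|a - b| / 2) := by
  have key : ∀ a b : ℝ, b ≤ a →
      |Real.exp a - Real.exp b| = 2 * Real.exp ((a + b) / 2) * Real.sinh (|a - b| / 2) := by
    intro a b h
    rw [abs_of_nonneg (sub_nonneg.2 (Real.exp_le_exp.2 h)), abs_of_nonneg (sub_nonneg.2 h),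
      Real.sinh_eq]
    have e1 : Real.exp ((a + b) / 2) * Real.exp ((a - b) / 2) = Real.exp a := by
      rw [← Real.exp_add]; congr 1; ring
    have e2 : Real.exp ((a + b) / 2) * Real.exp (-((a - b) / 2)) = Real.exp b := by
      rw [← Real.exp_add]; congr 1; ring
    rw [← e1, ← e2]
    ring
  rcases le_total b a with h | h
  · exact key a b h
  · rw [abs_sub_comm, key b a h, abs_sub_comm b a, add_comm b a]

lemma pair_dil {μ : ℝ} (hμ : 1 ≤ μ) (a b : ℝ) :
    μ * Real.exp ((μ - 1) * ((a + b) / 2)) * |Real.exp a - Real.exp b| ≤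
      |Real.exp (μ * a) - Real.exp (μ * b)| := by
  rw [exp_sub_exp_abs, exp_sub_exp_abs]
  have h1 : |μ * a - μ * b| / 2 = μ * (|a - b| / 2) := by
    rw [← mul_sub, abs_mul, abs_of_nonneg (by linarith : 0 ≤ μ)]; ring
  have h2 := sinh_mul_ge hμ (show 0 ≤ |a - b| / 2 by positivity)
  rw [h1]
  have e1 : Real.exp ((μ * a + μ * b) / 2) =
      Real.exp ((μ - 1) * ((a + b) / 2)) * Real.exp ((a + b) / 2) := by
    rw [← Real.exp_add]; congr 1; ring
  rw [e1]
  have h3 := mul_le_mul_of_nonneg_left h2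
    (show 0 ≤ 2 * (Real.exp ((μ - 1) * ((a + b) / 2)) * Real.exp ((a + b) / 2)) by positivity)
  calc _ = 2 * (Real.exp ((μ - 1) * ((a + b) / 2)) * Real.exp ((a + b) / 2)) *
      (μ * Real.sinh (|a - b| / 2)) := by ring
    _ ≤ _ := h3

lemma denom_dil {μ : ℝ} (hμ : 1 ≤ μ) {t u : ℝ} (ht : 0 ≤ t) (hu : 0 ≤ u) :
    Real.exp (μ * t) + Real.exp (-(μ * u)) ≤
      Real.exp ((μ - 1) * t) * (Real.exp t + Real.exp (-u)) := by
  rw [mul_add, ← Real.exp_add, ← Real.exp_add]
  have h1 : (μ - 1) * t + t = μ * t := by ring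
  rw [h1]
  have h2 : -(μ * u) ≤ (μ - 1) * t + -u := by nlinarith [mul_nonneg (sub_nonneg.2 hμ) (add_nonneg ht hu)]
  have := Real.exp_le_exp.2 h2
  linarith

lemma sum_pairs : ∀ (n : ℕ) (x : Fin n → ℝ),
    ∑ i : Fin n, ∑ j ∈ Ioi i, (x i + x j) = ((n : ℝ) - 1) * ∑ i, x i := by
  intro n
  induction n with
  | zero => intro x; simp
  | succ n ih =>
    intro x
    rw [Fin.sum_univ_succ, Fin.sum_Ioi_zero]
    have e : ∑ i : Fin n, ∑ j ∈ Ioi i.succ, (x i.succ + x j) =
        ∑ i : Fin n, ∑ j ∈ Ioi i, (x i.succ + x j.succ) := by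
      refine Finset.sum_congr rfl fun i _ => ?_
      rw [Fin.sum_Ioi_succ]
    rw [e, ih (fun i => x i.succ), Fin.sum_univ_succ (f := x), Finset.sum_add_distrib,
      Finset.sum_const, Finset.card_univ, Fintype.card_fin, nsmul_eq_mul]
    push_cast
    ring

lemma prod_pairs_const : ∀ (n : ℕ) (c : ℝ),
    ∏ i : Fin n, ∏ _j ∈ Ioi i, c ^ 2 = c ^ (n * (n - 1)) := by
  intro n
  induction n with
  | zero => intro c; simp
  | succ n ih =>
    intro c
    rw [Fin.prod_univ_succ, Fin.prod_Ioi_zero]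
    have e : ∏ i : Fin n, ∏ _j ∈ Ioi i.succ, c ^ 2 = ∏ i : Fin n, ∏ _j ∈ Ioi i, c ^ 2 := by
      refine Finset.prod_congr rfl fun i _ => ?_
      rw [Fin.prod_Ioi_succ]
    rw [e, ih, Finset.prod_const, Finset.card_univ, Fintype.card_fin, ← pow_mul, ← pow_add]
    congr 1
    rcases n with _ | n
    · simp
    · simp only [Nat.add_sub_cancel]; ring

/-- the dilation inequality -/
lemma fer_det_dil {n : ℕ} {μ : ℝ} (hμ : 1 ≤ μ) (t u : Fin n → ℝ) (ht : ∀ i, 0 ≤ t i)
    (hu : ∀ i, 0 ≤ u i) :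
    μ ^ (n * (n - 1)) * Real.exp (-((μ - 1) * (((n : ℝ) + 1) / 2) * (∑ i, t i + ∑ i, u i))) *
      |(Matrix.of fun i j : Fin n => fer (t i + u j)).det| ≤
      |(Matrix.of fun i j : Fin n => fer (μ * t i + μ * u j)).det| := by
  rw [fer_det, fer_det (fun i => μ * t i) (fun i => μ * u i)]
  simp only [abs_mul, Finset.abs_prod, abs_of_pos (Real.exp_pos _)]
  have hμ0 : 0 < μ := by linarith
  -- factorwise
  have hA : ∏ i : Fin n, ∏ j ∈ Ioi i, ((μ * Real.exp ((μ - 1) * ((t j + t i) / 2)) *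
      |Real.exp (t j) - Real.exp (t i)|) * (μ * Real.exp ((μ - 1) * ((-u j + -u i) / 2)) *
      |Real.exp (-u j) - Real.exp (-u i)|)) ≤
      ∏ i : Fin n, ∏ j ∈ Ioi i, (|Real.exp (μ * t j) - Real.exp (μ * t i)| *
        |Real.exp (-(μ * u j)) - Real.exp (-(μ * u i))|) := by
    refine Finset.prod_le_prod (fun i _ => Finset.prod_nonneg fun j _ => by positivity) fun i _ => ?_
    refine Finset.prod_le_prod (fun j _ => by positivity) fun j _ => ?_
    refine mul_le_mul (pair_dil hμ _ _) ?_ (by positivity) (by positivity)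
    have := pair_dil hμ (-u j) (-u i)
    simpa [mul_neg] using this
  have hB : ∏ i : Fin n, ∏ j : Fin n, (Real.exp (-((μ - 1) * t i)) * |(Real.exp (t i) + Real.exp (-u j))⁻¹|) ≤
      ∏ i : Fin n, ∏ j : Fin n, |(Real.exp (μ * t i) + Real.exp (-(μ * u j)))⁻¹| := by
    refine Finset.prod_le_prod (fun i _ => Finset.prod_nonneg fun j _ => by positivity) fun i _ => ?_
    refine Finset.prod_le_prod (fun j _ => by positivity) fun j _ => ?_
    rw [abs_of_pos (by positivity), abs_of_pos (by positivity), Real.exp_neg, ← mul_inv]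
    exact inv_anti₀ (by positivity) (denom_dil hμ (ht i) (hu j))
  have hC : ∏ j : Fin n, Real.exp (-(μ * u j)) =
      Real.exp (-((μ - 1) * ∑ j, u j)) * ∏ j : Fin n, Real.exp (-u j) := by
    rw [← Real.exp_sum, ← Real.exp_sum, ← Real.exp_add]
    congr 1
    rw [Finset.sum_neg_distrib, Finset.sum_neg_distrib, ← Finset.mul_sum]
    ring
  rw [hC]
  have hA' : ∏ i : Fin n, ∏ j ∈ Ioi i, ((μ * Real.exp ((μ - 1) * ((t j + t i) / 2)) *
      |Real.exp (t j) - Real.exp (t i)|) * (μ * Real.exp ((μ - 1) * ((-u j + -u i) / 2)) *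
      |Real.exp (-u j) - Real.exp (-u i)|)) =
      μ ^ (n * (n - 1)) * Real.exp ((μ - 1) / 2 * (((n : ℝ) - 1) * (∑ i, t i - ∑ i, u i))) *
        ∏ i : Fin n, ∏ j ∈ Ioi i, (|Real.exp (t j) - Real.exp (t i)| *
          |Real.exp (-u j) - Real.exp (-u i)|) := by
    rw [← prod_pairs_const]
    have e1 : Real.exp ((μ - 1) / 2 * (((n : ℝ) - 1) * (∑ i, t i - ∑ i, u i))) =
        ∏ i : Fin n, ∏ j ∈ Ioi i, Real.exp ((μ - 1) / 2 * ((t i - u i) + (t j - u j))) := by
      have := sum_pairs n (fun i => t i - u i)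
      rw [Finset.sum_sub_distrib] at this
      rw [← this]
      simp only [Finset.mul_sum, Real.exp_sum]
    rw [e1, ← Finset.prod_mul_distrib, ← Finset.prod_mul_distrib]
    refine Finset.prod_congr rfl fun i _ => ?_
    rw [← Finset.prod_mul_distrib, ← Finset.prod_mul_distrib]
    refine Finset.prod_congr rfl fun j _ => ?_
    have e2 : Real.exp ((μ - 1) / 2 * ((t i - u i) + (t j - u j))) =
        Real.exp ((μ - 1) * ((t j + t i) / 2)) * Real.exp ((μ - 1) * ((-u j + -u i) / 2)) := by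
      rw [← Real.exp_add]; congr 1; ring
    rw [e2]; ring
  have hB' : ∏ i : Fin n, ∏ j : Fin n, (Real.exp (-((μ - 1) * t i)) * |(Real.exp (t i) + Real.exp (-u j))⁻¹|) =
      Real.exp (-((μ - 1) * n * ∑ i, t i)) *
        ∏ i : Fin n, ∏ j : Fin n, |(Real.exp (t i) + Real.exp (-u j))⁻¹| := by
    have e1 : Real.exp (-((μ - 1) * n * ∑ i, t i)) =
        ∏ i : Fin n, ∏ _j : Fin n, Real.exp (-((μ - 1) * t i)) := by
      simp only [Finset.prod_const, Finset.card_univ, Fintype.card_fin, ← Real.exp_nat_mul]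
      rw [← Real.exp_sum]
      congr 1
      rw [Finset.mul_sum, ← Finset.sum_neg_distrib]
      refine Finset.sum_congr rfl fun i _ => ?_
      ring
    rw [e1, ← Finset.prod_mul_distrib]
    refine Finset.prod_congr rfl fun i _ => ?_
    rw [← Finset.prod_mul_distrib]
  rw [hA'] at hA
  rw [hB'] at hB
  have key : ∀ {A A' B B' c d e X : ℝ}, 0 ≤ A → 0 ≤ B → 0 ≤ c → 0 ≤ d → 0 ≤ e → 0 ≤ X →
      c * A ≤ A' → d * B ≤ B' → (c * d * e) * (A * (B * X)) ≤ A' * (B' * (e * X)) := by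
    intro A A' B B' c d e X hA hB hc hd he hX h1 h2
    have h3 : (c * A) * (d * B) ≤ A' * B' :=
      mul_le_mul h1 h2 (mul_nonneg hd hB) (le_trans (mul_nonneg hc hA) h1)
    calc _ = ((c * A) * (d * B)) * (e * X) := by ring
      _ ≤ (A' * B') * (e * X) := mul_le_mul_of_nonneg_right h3 (mul_nonneg he hX)
      _ = _ := by ring
  have hfin := key (X := ∏ j : Fin n, Real.exp (-u j)) (e := Real.exp (-((μ - 1) * ∑ j, u j)))
    (Finset.prod_nonneg fun i _ => Finset.prod_nonneg fun j _ => by positivity)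
    (Finset.prod_nonneg fun i _ => Finset.prod_nonneg fun j _ => by positivity)
    (by positivity) (by positivity) (by positivity)
    (Finset.prod_nonneg fun i _ => by positivity) hA hB
  refine le_trans (le_of_eq ?_) hfin
  congr 1
  rw [mul_assoc (μ ^ (n * (n - 1))), mul_assoc (μ ^ (n * (n - 1))), ← Real.exp_add,
    ← Real.exp_add]
  congr 2
  ring

end Pool.Agent.Helper630.Eta
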