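import Mathlib

set_option autoImplicit false
open Finset Filter Topology

namespace Pool.Agent.Helper630.Eta

/-- even partial sums of the eta series -/
noncomputable def Fn (n : ℕ) (s : ℂ) : ℂ := ∑ m ∈ range (2 * n), (-1 : ℂ) ^ m * ((m : ℂ) + 1) ^ (-s)

/-- paired terms -/
noncomputable def Dm (m : ℕ) (s : ℂ) : ℂ := (2 * (m : ℂ) + 1) ^ (-s) - (2 * (m : ℂ) + 2) ^ (-s)

lemma Fn_eq (n : ℕ) (s : ℂ) : Fn n s = ∑ m ∈ range n, Dm m s := by
  induction n with
  | zero => simp [Fn]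
  | succ n ih =>
    rw [Finset.sum_range_succ, ← ih]
    unfold Fn Dm
    rw [show 2 * (n + 1) = 2 * n + 1 + 1 by ring, Finset.sum_range_succ, Finset.sum_range_succ]
    have h1 : (-1 : ℂ) ^ (2 * n) = 1 := by rw [pow_mul]; simp
    have h2 : (-1 : ℂ) ^ (2 * n + 1) = -1 := by rw [pow_succ, h1]; simp
    rw [h1, h2]
    push_cast
    have h3 : (2 : ℂ) * n + 1 + 1 = 2 * n + 2 := by ring
    rw [h3]
    ring

lemma Dm_bound {δ R : ℝ} (hδ : 0 < δ) (m : ℕ) {s : ℂ} (h1 : δ < s.re) (h2 : ‖s‖ < R) :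
    ‖Dm m s‖ ≤ R * (2 * (m : ℝ) + 1) ^ (-δ - 1) := by
  have hR : 0 ≤ R := le_trans (norm_nonneg s) h2.le
  have hm : (0 : ℝ) ≤ m := Nat.cast_nonneg m
  have hf : ∀ y ∈ Set.Icc (2 * (m : ℝ) + 1) (2 * m + 2), HasDerivWithinAt (fun y : ℝ => (y : ℂ) ^ (-s))
      ((-s) * (y : ℂ) ^ (-s - 1)) (Set.Icc (2 * (m : ℝ) + 1) (2 * m + 2)) y := by
    intro y hy
    have hy0 : 0 < y := by linarith [hy.1]
    have h3 : HasDerivAt (fun z : ℂ => z ^ (-s)) ((-s) * (y : ℂ) ^ (-s - 1)) (y : ℂ) := by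
      have := (hasDerivAt_id (y : ℂ)).cpow_const (c := -s)
        (Or.inl (by simpa using hy0))
      simpa using this
    exact h3.comp_ofReal.hasDerivWithinAt
  have hb : ∀ y ∈ Set.Ico (2 * (m : ℝ) + 1) (2 * m + 2),
      ‖(-s) * (y : ℂ) ^ (-s - 1)‖ ≤ R * (2 * (m : ℝ) + 1) ^ (-δ - 1) := by
    intro y hy
    have hy0 : 0 < y := by linarith [hy.1]
    have hy1 : 1 ≤ y := by linarith [hy.1]
    rw [norm_mul, norm_neg, Complex.norm_cpow_eq_rpow_re_of_pos hy0]
    have e1 : (-s - 1).re = -s.re - 1 := by simp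
    rw [e1]
    refine mul_le_mul h2.le ?_ (by positivity) hR
    calc y ^ (-s.re - 1) ≤ y ^ (-δ - 1) := Real.rpow_le_rpow_of_exponent_le hy1 (by linarith)
      _ ≤ _ := Real.rpow_le_rpow_of_nonpos (by linarith) hy.1 (by linarith)
  have := norm_image_sub_le_of_norm_deriv_le_segment' hf hb (2 * (m : ℝ) + 2)
    (Set.right_mem_Icc.2 (by linarith))
  have e2 : (2 * (m : ℝ) + 2 - (2 * m + 1)) = 1 := by ring
  rw [e2, mul_one] at this
  rw [← norm_sub_rev] at this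
  unfold Dm
  refine le_trans (le_of_eq ?_) this
  congr 2
  · push_cast; rfl
  · push_cast; rfl

lemma summable_bd {δ R : ℝ} (hδ : 0 < δ) :
    Summable (fun m : ℕ => R * (2 * (m : ℝ) + 1) ^ (-δ - 1)) := by
  refine Summable.mul_left R ?_
  have h1 : Summable (fun m : ℕ => ((m + 1 : ℕ) : ℝ) ^ (-δ - 1)) :=
    (summable_nat_add_iff 1).2 (Real.summable_nat_rpow.2 (by linarith))
  refine Summable.of_nonneg_of_le (fun m => by positivity) (fun m => ?_) h1
  refine Real.rpow_le_rpow_of_nonpos (by positivity) ?_ (by linarith)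
  push_cast
  have : (0 : ℝ) ≤ m := Nat.cast_nonneg m
  linarith

/-- the region -/
def UU (δ R : ℝ) : Set ℂ := {s | δ < s.re} ∩ Metric.ball 0 R

lemma UU_open (δ R : ℝ) : IsOpen (UU δ R) :=
  (isOpen_lt continuous_const Complex.continuous_re).inter Metric.isOpen_ball

lemma UU_pre (δ R : ℝ) : IsPreconnected (UU δ R) :=
  ((convex_halfSpace_re_gt δ).inter (convex_ball 0 R)).isPreconnected

lemma Fn_diff (n : ℕ) : Differentiable ℂ (Fn n) := by
  unfold Fn
  have h : ∀ m : ℕ, Differentiable ℂ (fun s : ℂ => (-1 : ℂ) ^ m * ((m : ℂ) + 1) ^ (-s)) := by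
    intro m
    have hm : ((m : ℂ) + 1) ≠ 0 := Nat.cast_add_one_ne_zero m
    exact (Differentiable.const_cpow differentiable_neg (Or.inl hm)).const_mul _
  have := Differentiable.fun_sum (u := range (2 * n)) (fun m _ => h m)
  exact this

lemma Fn_tendsto {η : ℂ → ℂ} (hη : Differentiable ℂ η)
    (hs : ∀ s : ℂ, 1 < s.re → HasSum (fun n : ℕ => (-1 : ℂ) ^ n * ((n : ℂ) + 1) ^ (-s)) (η s))
    {δ R : ℝ} (hδ : 0 < δ) (hR : δ + 2 < R) :
    TendstoLocallyUniformlyOn Fn η atTop (UU δ R) := by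
  have h1 : TendstoUniformlyOn (fun n s => ∑ m ∈ range n, Dm m s) (fun s => ∑' m, Dm m s) atTop
      (UU δ R) :=
    tendstoUniformlyOn_tsum_nat (summable_bd (R := R) hδ)
      (fun m s hs => Dm_bound hδ m hs.1 (by simpa using hs.2))
  have e1 : (fun n s => ∑ m ∈ range n, Dm m s) = Fn := by
    funext n s; exact (Fn_eq n s).symm
  rw [e1] at h1
  have h2 : TendstoLocallyUniformlyOn Fn (fun s => ∑' m, Dm m s) atTop (UU δ R) :=
    h1.tendstoLocallyUniformlyOn
  have h3 : DifferentiableOn ℂ (fun s => ∑' m, Dm m s) (UU δ R) :=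
    h2.differentiableOn (Eventually.of_forall fun n => (Fn_diff n).differentiableOn) (UU_open δ R)
  have h4 : AnalyticOnNhd ℂ (fun s => ∑' m, Dm m s) (UU δ R) := h3.analyticOnNhd (UU_open δ R)
  have h5 : AnalyticOnNhd ℂ η (UU δ R) := hη.differentiableOn.analyticOnNhd (UU_open δ R)
  have hz : ((δ + 2 : ℝ) : ℂ) ∈ UU δ R := by
    refine ⟨?_, ?_⟩
    · show δ < ((δ + 2 : ℝ) : ℂ).re
      rw [Complex.ofReal_re]; linarith
    · rw [mem_ball_zero_iff, Complex.norm_real, Real.norm_of_nonneg (by linarith)]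
      exact hR
  have h6 : (fun s => ∑' m, Dm m s) =ᶠ[𝓝 ((δ + 2 : ℝ) : ℂ)] η := by
    have hO : IsOpen (UU δ R ∩ {s : ℂ | 1 < s.re}) :=
      (UU_open δ R).inter (isOpen_lt continuous_const Complex.continuous_re)
    have hm : ((δ + 2 : ℝ) : ℂ) ∈ UU δ R ∩ {s : ℂ | 1 < s.re} := by
      refine ⟨hz, ?_⟩
      show 1 < ((δ + 2 : ℝ) : ℂ).re
      rw [Complex.ofReal_re]; linarith
    filter_upwards [hO.mem_nhds hm] with s hs'
    have a1 : Tendsto (fun n => Fn n s) atTop (𝓝 (∑' m, Dm m s)) := h2.tendsto_at hs'.1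
    have a2 : Tendsto (fun n => Fn n s) atTop (𝓝 (η s)) := by
      have := (hs s hs'.2).tendsto_sum_nat
      exact this.comp (tendsto_id.const_mul_atTop' (by norm_num : 0 < 2))
    exact tendsto_nhds_unique a1 a2
  have h7 := h4.eqOn_of_preconnected_of_eventuallyEq h5 (UU_pre δ R) hz h6
  exact h2.congr_right h7

lemma iter_Fn (r n : ℕ) : iteratedDeriv r (Fn n) = fun s => ∑ m ∈ range (2 * n),
    (-1 : ℂ) ^ m * ((-Complex.log ((m : ℂ) + 1)) ^ r * ((m : ℂ) + 1) ^ (-s)) := by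
  induction r with
  | zero => funext s; simp [Fn]
  | succ r ih =>
    rw [iteratedDeriv_succ, ih]
    funext s
    have h : ∀ m ∈ range (2 * n), HasDerivAt (fun s : ℂ => (-1 : ℂ) ^ m *
        ((-Complex.log ((m : ℂ) + 1)) ^ r * ((m : ℂ) + 1) ^ (-s)))
        ((-1 : ℂ) ^ m * ((-Complex.log ((m : ℂ) + 1)) ^ (r + 1) * ((m : ℂ) + 1) ^ (-s))) s := by
      intro m _
      have hm : ((m : ℂ) + 1) ≠ 0 := Nat.cast_add_one_ne_zero m
      have h1 := ((hasDerivAt_neg s).const_cpow (c := (m : ℂ) + 1) (Or.inl hm)).const_mul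
        ((-1 : ℂ) ^ m * (-Complex.log ((m : ℂ) + 1)) ^ r)
      refine (h1.congr_deriv ?_).congr_of_eventuallyEq (Eventually.of_forall fun z => ?_)
      · ring
      · simp only; ring
    exact (HasDerivAt.fun_sum h).deriv

lemma iter_tendsto {η : ℂ → ℂ} (hη : Differentiable ℂ η)
    (hs : ∀ s : ℂ, 1 < s.re → HasSum (fun n : ℕ => (-1 : ℂ) ^ n * ((n : ℂ) + 1) ^ (-s)) (η s))
    {δ R : ℝ} (hδ : 0 < δ) (hR : δ + 2 < R) (r : ℕ) :
    TendstoLocallyUniformlyOn (fun n => iteratedDeriv r (Fn n)) (iteratedDeriv r η) atTop (UU δ R) := by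
  induction r with
  | zero =>
    simp only [iteratedDeriv_zero]
    exact Fn_tendsto hη hs hδ hR
  | succ r ih =>
    have hd : ∀ n, Differentiable ℂ (iteratedDeriv r (Fn n)) := by
      intro n
      have : ContDiff ℂ ⊤ (Fn n) := (Fn_diff n).contDiff
      exact this.differentiable_iteratedDeriv r (by exact_mod_cast WithTop.coe_lt_top _)
    have := ih.deriv (Eventually.of_forall fun n => (hd n).differentiableOn) (UU_open δ R)
    simp only [iteratedDeriv_succ]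
    exact this

/-- the real limits -/
lemma eta_lim {η : ℂ → ℂ} (hη : Differentiable ℂ η)
    (hs : ∀ s : ℂ, 1 < s.re → HasSum (fun n : ℕ => (-1 : ℂ) ^ n * ((n : ℂ) + 1) ^ (-s)) (η s))
    {a : ℝ} (ha : 0 < a) (r : ℕ) :
    ((iteratedDeriv r η a).re : ℂ) = iteratedDeriv r η a ∧
    Tendsto (fun n => ∑ m ∈ range (2 * n), (-1 : ℝ) ^ m * ((-Real.log ((m : ℝ) + 1)) ^ r *
      ((m : ℝ) + 1) ^ (-a))) atTop (𝓝 (iteratedDeriv r η a).re) := by
  have h1 := iter_tendsto hη hs (δ := a / 2) (R := a + 3) (by linarith) (by linarith) r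
  have hmem : (a : ℂ) ∈ UU (a / 2) (a + 3) := by
    refine ⟨?_, ?_⟩
    · show a / 2 < (a : ℂ).re
      rw [Complex.ofReal_re]; linarith
    · rw [mem_ball_zero_iff, Complex.norm_real, Real.norm_of_nonneg ha.le]
      linarith
  have h2 := h1.tendsto_at hmem
  have h3 : ∀ n, iteratedDeriv r (Fn n) (a : ℂ) = ((∑ m ∈ range (2 * n), (-1 : ℝ) ^ m *
      ((-Real.log ((m : ℝ) + 1)) ^ r * ((m : ℝ) + 1) ^ (-a)) : ℝ) : ℂ) := by
    intro n
    rw [iter_Fn]
    push_cast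
    refine Finset.sum_congr rfl fun m _ => ?_
    have hm : (0 : ℝ) ≤ (m : ℝ) + 1 := by positivity
    rw [Complex.ofReal_log hm, Complex.ofReal_cpow hm]
    push_cast
    rfl
  simp only [h3] at h2
  have h4 : Tendsto (fun n => ∑ m ∈ range (2 * n), (-1 : ℝ) ^ m * ((-Real.log ((m : ℝ) + 1)) ^ r *
      ((m : ℝ) + 1) ^ (-a))) atTop (𝓝 (iteratedDeriv r η a).re) := by
    have := (Complex.continuous_re.tendsto _).comp h2
    simpa only [Function.comp_def, Complex.ofReal_re] using this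
  refine ⟨?_, h4⟩
  have h5 := (Complex.continuous_ofReal.tendsto _).comp h4
  exact tendsto_nhds_unique h5 h2

end Pool.Agent.Helper630.Eta
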