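import Pool.Agent.Helper630_Eta.EtaC

set_option autoImplicit false
open Finset Filter Topology

namespace Pool.Agent.Helper630.Eta

lemma div_form (k : ℕ) (s : ℂ) : (-1 : ℂ) ^ k / ((k : ℂ) + 1) ^ s = (-1 : ℂ) ^ k * ((k : ℂ) + 1) ^ (-s) := by
  rw [Complex.cpow_neg, div_eq_mul_inv]

lemma summ_eta {s : ℂ} (hs : 1 < s.re) :
    Summable (fun k : ℕ => (-1 : ℂ) ^ k * ((k : ℂ) + 1) ^ (-s)) := by
  have h1 : Summable (fun k : ℕ => ((k + 1 : ℕ) : ℝ) ^ (-s.re)) :=
    (summable_nat_add_iff 1).2 (Real.summable_nat_rpow.2 (by linarith))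
  refine Summable.of_norm_bounded h1 fun k => ?_
  have hk : ((k : ℂ) + 1) = (((k + 1 : ℕ) : ℝ) : ℂ) := by push_cast; rfl
  rw [norm_mul, norm_pow, norm_neg, norm_one, one_pow, one_mul, hk,
    Complex.norm_cpow_eq_rpow_re_of_pos (by positivity)]
  simp

/-- the convergence hypothesis gives the absolutely convergent series -/
lemma hasSum_of_tendsto {η : ℂ → ℂ} (h : ∀ s : ℂ, 0 < s.re → Tendsto (fun n : ℕ =>
    ∑ k ∈ Finset.range n, (-1 : ℂ) ^ k / ((k : ℂ) + 1) ^ s) atTop (𝓝 (η s))) :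
    ∀ s : ℂ, 1 < s.re → HasSum (fun n : ℕ => (-1 : ℂ) ^ n * ((n : ℂ) + 1) ^ (-s)) (η s) := by
  intro s hs
  have h1 := (summ_eta hs).hasSum
  have h2 := h s (by linarith)
  simp only [div_form] at h2
  have h3 := tendsto_nhds_unique h1.tendsto_sum_nat h2
  rwa [h3] at h1

lemma tendsto_all {η : ℂ → ℂ} (hη : Differentiable ℂ η)
    (hs : ∀ s : ℂ, 1 < s.re → HasSum (fun n : ℕ => (-1 : ℂ) ^ n * ((n : ℂ) + 1) ^ (-s)) (η s))
    (s : ℂ) (h : 0 < s.re) : Tendsto (fun n : ℕ =>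
    ∑ k ∈ Finset.range n, (-1 : ℂ) ^ k / ((k : ℂ) + 1) ^ s) atTop (𝓝 (η s)) := by
  simp only [div_form]
  have h1 := Fn_tendsto hη hs (δ := s.re / 2) (R := s.re + ‖s‖ + 3) (by linarith)
    (by linarith [norm_nonneg s])
  have hmem : s ∈ UU (s.re / 2) (s.re + ‖s‖ + 3) := by
    refine ⟨?_, ?_⟩
    · show s.re / 2 < s.re
      linarith
    · rw [mem_ball_zero_iff]
      linarith
  have h2 := h1.tendsto_at hmem
  have h3 : Tendsto (fun n : ℕ => Fn (n / 2) s) atTop (𝓝 (η s)) :=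
    h2.comp (Nat.tendsto_div_const_atTop (by norm_num))
  have h4 : Tendsto (fun n : ℕ => (∑ k ∈ Finset.range n, (-1 : ℂ) ^ k * ((k : ℂ) + 1) ^ (-s)) -
      Fn (n / 2) s) atTop (𝓝 0) := by
    have h5 : Tendsto (fun n : ℕ => ((n : ℝ)) ^ (-s.re)) atTop (𝓝 0) :=
      (tendsto_rpow_neg_atTop h).comp tendsto_natCast_atTop_atTop
    refine squeeze_zero_norm' ?_ h5
    refine Eventually.of_forall fun n => ?_
    rcases Nat.even_or_odd' n with ⟨m, hm | hm⟩
    · have e1 : n / 2 = m := by omega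
      rw [e1, hm]
      have e2 : (∑ k ∈ Finset.range (2 * m), (-1 : ℂ) ^ k * ((k : ℂ) + 1) ^ (-s)) - Fn m s = 0 := by
        unfold Fn; exact sub_self _
      rw [e2, norm_zero]
      positivity
    · have e1 : n / 2 = m := by omega
      rw [e1, hm, Finset.sum_range_succ]
      have e2 : (∑ k ∈ Finset.range (2 * m), (-1 : ℂ) ^ k * ((k : ℂ) + 1) ^ (-s)) = Fn m s := rfl
      rw [e2, add_sub_cancel_left, norm_mul, norm_pow, norm_neg, norm_one, one_pow, one_mul]
      have hk : (((2 * m : ℕ) : ℂ) + 1) = (((2 * m + 1 : ℕ) : ℝ) : ℂ) := by push_cast; rfl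
      rw [hk, Complex.norm_cpow_eq_rpow_re_of_pos (by positivity)]
      simp
  have h5 := h4.add h3
  rw [zero_add] at h5
  refine h5.congr fun n => ?_
  ring

lemma exists_eta : ∃ η : ℂ → ℂ, Differentiable ℂ η ∧
    ∀ s : ℂ, 1 < s.re → HasSum (fun n : ℕ => (-1 : ℂ) ^ n * ((n : ℂ) + 1) ^ (-s)) (η s) := by
  let Φ : ZMod 2 → ℂ := fun j => if j = 0 then -1 else 1
  have hΦ : ∑ j, Φ j = 0 := by
    have : (Finset.univ : Finset (ZMod 2)) = {0, 1} := by decide
    rw [this, Finset.sum_pair (by decide)]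
    simp [Φ]
  refine ⟨ZMod.LFunction Φ, ZMod.differentiable_LFunction_of_sum_zero hΦ, ?_⟩
  intro s hs
  rw [ZMod.LFunction_eq_LSeries Φ hs]
  have h1 := (summ_eta hs).hasSum
  have h2 : LSeries (fun n => Φ n) s = ∑' k : ℕ, (-1 : ℂ) ^ k * ((k : ℂ) + 1) ^ (-s) := by
    unfold LSeries
    have h3 : ∀ k : ℕ, LSeries.term (fun n => Φ n) s (k + 1) = (-1 : ℂ) ^ k * ((k : ℂ) + 1) ^ (-s) := by
      intro k
      rw [LSeries.term_of_ne_zero (Nat.succ_ne_zero k), Complex.cpow_neg, div_eq_mul_inv]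
      have e1 : Φ ((k + 1 : ℕ) : ZMod 2) = (-1 : ℂ) ^ k := by
        rcases Nat.even_or_odd k with h | h
        · rw [h.neg_one_pow]
          have : ((k + 1 : ℕ) : ZMod 2) ≠ 0 := by
            rw [Ne, ZMod.natCast_eq_zero_iff]
            intro h2
            have := (Nat.even_add_one.1 (even_iff_two_dvd.2 h2))
            exact this h
          simp only [Φ, if_neg this]
        · rw [h.neg_one_pow]
          have : ((k + 1 : ℕ) : ZMod 2) = 0 := by
            rw [ZMod.natCast_eq_zero_iff]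
            exact even_iff_two_dvd.1 (Odd.add_one h)
          simp only [Φ, if_pos this]
      rw [e1]
      push_cast
      rfl
    have hsum : Summable (LSeries.term (fun n => Φ n) s) := by
      rw [← summable_nat_add_iff 1]
      simp only [h3]
      exact summ_eta hs
    rw [hsum.tsum_eq_zero_add]
    simp only [h3, LSeries.term_zero, zero_add]
  rw [h2]
  exact h1

end Pool.Agent.Helper630.Eta
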