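import Pool.Agent.Helper630_Eta.Ineq

set_option autoImplicit false
open Matrix Finset MeasureTheory Filter Topology

namespace Pool.Agent.Helper630.Eta

lemma det_corner (n : ℕ) (B : ℕ → ℕ → ℝ) :
    (Matrix.of fun p q : Fin (n + 1) => (if (p : ℕ) = 0 ∧ (q : ℕ) = 0 then (1 : ℝ) else 0) - B p q).det =
      (-1) ^ (n + 1) * ((Matrix.of fun p q : Fin (n + 1) => B p q).det -
        (Matrix.of fun p q : Fin n => B (p + 1) (q + 1)).det) := by
  have h1 : (Matrix.of fun p q : Fin (n + 1) => (if (p : ℕ) = 0 ∧ (q : ℕ) = 0 then (1 : ℝ) else 0) - B p q) =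
      -(Matrix.of fun p q : Fin (n + 1) => B p q - (if (p : ℕ) = 0 ∧ (q : ℕ) = 0 then (1 : ℝ) else 0)) := by
    ext p q
    simp
  rw [h1, Matrix.det_neg, Fintype.card_fin]
  congr 1
  rw [Matrix.det_succ_row_zero, Matrix.det_succ_row_zero (Matrix.of fun p q : Fin (n + 1) => B p q)]
  have h2 : ∀ j : Fin (n + 1), (Matrix.of fun p q : Fin (n + 1) => B p q -
      (if (p : ℕ) = 0 ∧ (q : ℕ) = 0 then (1 : ℝ) else 0)).submatrix Fin.succ j.succAbove =
      (Matrix.of fun p q : Fin (n + 1) => B p q).submatrix Fin.succ j.succAbove := by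
    intro j
    ext p q
    simp
  simp only [h2]
  rw [Fin.sum_univ_succ, Fin.sum_univ_succ]
  have h3 : (Matrix.of fun p q : Fin (n + 1) => B p q).submatrix Fin.succ (Fin.succAbove 0) =
      (Matrix.of fun p q : Fin n => B (p + 1) (q + 1)) := by
    ext p q
    simp
  rw [h3]
  simp
  ring

/-- the lower triangular coefficients -/
noncomputable def LL (x : ℝ) (j p : ℕ) : ℝ := (j.choose p) * gg x (j - p)

lemma LL_zero (x : ℝ) (j p : ℕ) (h : j < p) : LL x j p = 0 := by
  simp [LL, Nat.choose_eq_zero_of_lt h]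

lemma LL_det (x : ℝ) (n : ℕ) : (Matrix.of fun j p : Fin n => LL x j p).det = gg x 0 ^ n := by
  rw [tri_det n (LL x) (LL_zero x)]
  simp [LL]

section
variable {x : ℝ} {e : ℕ → ℝ}

lemma dA_one (hx : 0 < x)
    (he : ∀ r, Tendsto (fun n => ∑ m ∈ range (2 * n), (-1 : ℝ) ^ m *
      ((-Real.log ((m : ℝ) + 1)) ^ r * ((m : ℝ) + 1) ^ (-(2 * x)))) atTop (𝓝 (e r))) (n : ℕ) :
    dA x n (fun t u => fer (t + u)) =
      (gg x 0 ^ n) ^ 2 * (Matrix.of fun p q : Fin n => e (p + q)).det := by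
  unfold dA
  have h1 : (Matrix.of fun i j : Fin n => AK x (fun t u => fer (t + u)) i j) =
      (Matrix.of fun j k : Fin n => ∑ p ∈ range ((j : ℕ) + 1), ∑ q ∈ range ((k : ℕ) + 1),
      LL x j p * LL x k q * (fun p q => e (p + q)) p q) := by
    ext i j
    simp only [Matrix.of_apply]
    rw [AK_fer hx he]
    rfl
  rw [h1, tri_mul n (LL x) (fun p q => e (p + q)) (LL_zero x), Matrix.det_mul, Matrix.det_mul,
    Matrix.det_transpose, LL_det]
  ring

lemma exp_mul_fer (v : ℝ) : Real.exp (-v) * fer v = Real.exp (-v) - fer v := by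
  unfold fer
  have h1 : Real.exp (-v) * Real.exp v = 1 := by rw [← Real.exp_add]; simp
  have h2 : Real.exp v + 1 ≠ 0 := by positivity
  field_simp
  linear_combination (-1 : ℝ) * h1

lemma dA_exp (hx : 0 < x)
    (he : ∀ r, Tendsto (fun n => ∑ m ∈ range (2 * n), (-1 : ℝ) ^ m *
      ((-Real.log ((m : ℝ) + 1)) ^ r * ((m : ℝ) + 1) ^ (-(2 * x)))) atTop (𝓝 (e r))) (n : ℕ) :
    dA x (n + 1) (fun t u => Real.exp (-(t + u)) * fer (t + u)) =
      (gg x 0 ^ (n + 1)) ^ 2 * ((-1) ^ (n + 1) *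
        ((Matrix.of fun p q : Fin (n + 1) => e (p + q)).det -
        (Matrix.of fun p q : Fin n => e (p + q + 2)).det)) := by
  unfold dA
  have hg : Good (fun t u => fer (t + u)) := by
    have := good_fer one_pos
    simpa only [one_mul] using this
  have h0 : ∀ i j : ℕ, AK x (fun t u => Real.exp (-(t + u)) * fer (t + u)) i j =
      gg x i * gg x j - AK x (fun t u => fer (t + u)) i j := by
    intro i j
    have e1 : (fun t u : ℝ => Real.exp (-(t + u)) * fer (t + u)) =
        (fun t u : ℝ => Real.exp (-t) * Real.exp (-u) - fer (t + u)) := by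
      funext t u
      rw [exp_mul_fer, neg_add, Real.exp_add]
    rw [e1, AK_sub hx good_exp hg, AK_prod]
    rfl
  have h1 : (Matrix.of fun i j : Fin (n + 1) =>
      AK x (fun t u => Real.exp (-(t + u)) * fer (t + u)) i j) =
      (Matrix.of fun j k : Fin (n + 1) => ∑ p ∈ range ((j : ℕ) + 1), ∑ q ∈ range ((k : ℕ) + 1),
      LL x j p * LL x k q * (fun p q => (if p = 0 ∧ q = 0 then (1 : ℝ) else 0) - e (p + q)) p q) := by
    ext i j
    simp only [Matrix.of_apply]
    rw [h0, AK_fer hx he]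
    simp only [mul_sub, Finset.sum_sub_distrib]
    congr 1
    have e2 : ∀ p q : ℕ, LL x i p * LL x j q * (if p = 0 ∧ q = 0 then (1 : ℝ) else 0) =
        (if p = 0 then LL x i p else 0) * (if q = 0 then LL x j q else 0) := by
      intro p q
      by_cases hp : p = 0 <;> by_cases hq : q = 0 <;> simp [hp, hq]
    simp only [e2, ← Finset.mul_sum, ← Finset.sum_mul]
    rw [Finset.sum_ite_eq' (range ((i : ℕ) + 1)) 0, Finset.sum_ite_eq' (range ((j : ℕ) + 1)) 0]
    simp [LL]
  rw [h1, tri_mul (n + 1) (LL x) (fun p q => (if p = 0 ∧ q = 0 then (1 : ℝ) else 0) - e (p + q))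
    (LL_zero x), Matrix.det_mul, Matrix.det_mul,
    Matrix.det_transpose, LL_det]
  rw [det_corner n (fun p q => e (p + q))]
  have e3 : (Matrix.of fun p q : Fin n => e ((p : ℕ) + 1 + ((q : ℕ) + 1))) =
      (Matrix.of fun p q : Fin n => e ((p : ℕ) + q + 2)) := by
    ext p q
    simp only [Matrix.of_apply]
    congr 1
    ring
  rw [e3]
  ring

lemma dA_scale (hx : 0 < x) {μ : ℝ} (hμ : 0 < μ) (n : ℕ) :
    dA x n (fun t u => fer (μ * t + μ * u)) =
      ((μ ^ (-x)) ^ 2) ^ n * dA x n (fun t u => fer (t + u)) := by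
  unfold dA
  have hg : Good (fun t u => fer (t + u)) := by
    have := good_fer one_pos
    simpa only [one_mul] using this
  have h1 : (Matrix.of fun i j : Fin n => AK x (fun t u => fer (μ * t + μ * u)) i j) =
      ((μ ^ (-x)) ^ 2) • (Matrix.of fun j k : Fin n => ∑ p ∈ range ((j : ℕ) + 1),
        ∑ q ∈ range ((k : ℕ) + 1),
        ((-Real.log μ) ^ ((j : ℕ) - p) * ((j : ℕ).choose p)) *
        ((-Real.log μ) ^ ((k : ℕ) - q) * ((k : ℕ).choose q)) *
        (fun p q => AK x (fun t u => fer (t + u)) p q) p q) := by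
    ext i j
    simp only [Matrix.of_apply, Matrix.smul_apply, smul_eq_mul]
    exact AK_scale hx hμ hg i j
  rw [h1, tri_mul n (fun j p => (-Real.log μ) ^ (j - p) * (j.choose p))
    (fun p q => AK x (fun t u => fer (t + u)) p q) (fun j p h => by
      simp [Nat.choose_eq_zero_of_lt h]), Matrix.det_smul, Matrix.det_mul, Matrix.det_mul,
    Matrix.det_transpose, tri_det n (fun j p => (-Real.log μ) ^ (j - p) * (j.choose p)) (fun j p h => by
      simp [Nat.choose_eq_zero_of_lt h]), Fintype.card_fin]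
  simp

/-- the real theorem -/
theorem real_main (hx : 0 < x)
    (he : ∀ r, Tendsto (fun n => ∑ m ∈ range (2 * n), (-1 : ℝ) ^ m *
      ((-Real.log ((m : ℝ) + 1)) ^ r * ((m : ℝ) + 1) ^ (-(2 * x)))) atTop (𝓝 (e r))) (n : ℕ) :
    0 < eps (n + 1) * (Matrix.of fun p q : Fin (n + 1) => e (p + q)).det ∧
    0 < eps (n + 1) * ((-1) ^ (n + 1) * ((Matrix.of fun p q : Fin (n + 1) => e (p + q)).det -
        (Matrix.of fun p q : Fin n => e (p + q + 2)).det)) ∧
    (1 + 2 / (((n + 1 : ℕ) : ℝ) + 1)) ^ ((n + 1) * n) *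
      (eps (n + 1) * ((-1) ^ (n + 1) * ((Matrix.of fun p q : Fin (n + 1) => e (p + q)).det -
        (Matrix.of fun p q : Fin n => e (p + q + 2)).det))) ≤
    (((1 + 2 / (((n + 1 : ℕ) : ℝ) + 1)) ^ (-x)) ^ 2) ^ (n + 1) *
      (eps (n + 1) * (Matrix.of fun p q : Fin (n + 1) => e (p + q)).det) := by
  have hg : 0 < (gg x 0 ^ (n + 1)) ^ 2 := by
    have := gg_pos hx
    positivity
  have h1 := dA_fer_pos hx (n + 1) one_pos
  simp only [one_mul] at h1
  have h2 := dA_expfer_pos hx (n + 1)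
  have h3 := dA_comp hx (n + 1)
  have hμ : (0 : ℝ) < 1 + 2 / (((n + 1 : ℕ) : ℝ) + 1) := by positivity
  rw [dA_scale hx hμ, dA_one hx he, dA_exp hx he] at h3
  rw [dA_one hx he] at h1
  rw [dA_exp hx he] at h2
  set h := (Matrix.of fun p q : Fin (n + 1) => e (p + q)).det
  set g := (Matrix.of fun p q : Fin n => e (p + q + 2)).det
  set c := (gg x 0 ^ (n + 1)) ^ 2
  refine ⟨?_, ?_, ?_⟩
  · have : eps (n + 1) * (c * h) = c * (eps (n + 1) * h) := by ring
    rw [this] at h1
    exact (mul_pos_iff_of_pos_left hg).1 h1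
  · have : eps (n + 1) * (c * ((-1) ^ (n + 1) * (h - g))) =
      c * (eps (n + 1) * ((-1) ^ (n + 1) * (h - g))) := by ring
    rw [this] at h2
    exact (mul_pos_iff_of_pos_left hg).1 h2
  · refine le_of_mul_le_mul_left ?_ hg
    calc _ = (1 + 2 / (((n + 1 : ℕ) : ℝ) + 1)) ^ ((n + 1) * (n + 1 - 1)) *
          (eps (n + 1) * (c * ((-1) ^ (n + 1) * (h - g)))) := by
            rw [Nat.add_sub_cancel]; ring
      _ ≤ _ := h3
      _ = _ := by ring

end

end Pool.Agent.Helper630.Eta
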