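import Pool.Agent.Helper630_Eta.Sign

set_option autoImplicit false
open Matrix Finset MeasureTheory Filter Topology

namespace Pool.Agent.Helper630.Eta

/-- the determinant of the nested integrals -/
noncomputable def dA (x : ℝ) (n : ℕ) (K : ℝ → ℝ → ℝ) : ℝ :=
  (Matrix.of fun i j : Fin n => AK x K i j).det

lemma good_fer {c : ℝ} (hc : 0 < c) : Good (fun t u => fer (c * t + c * u)) := by
  refine ⟨?_, c, hc, fun t u _ => ?_⟩
  · exact fer_meas.comp (by fun_prop)
  · rw [abs_of_pos (fer_pos _), mul_add]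
    exact fer_le _

lemma good_expfer : Good (fun t u => Real.exp (-(t + u)) * fer (t + u)) := by
  refine ⟨?_, 2, two_pos, fun t u _ => ?_⟩
  · exact Measurable.mul (by fun_prop) (fer_meas.comp (by fun_prop))
  · rw [abs_mul, abs_of_pos (fer_pos _), abs_of_pos (Real.exp_pos _)]
    calc Real.exp (-(t + u)) * fer (t + u) ≤ Real.exp (-(t + u)) * Real.exp (-(t + u)) :=
          mul_le_mul_of_nonneg_left (fer_le _) (Real.exp_pos _).le
      _ = _ := by rw [← Real.exp_add]; congr 1; ring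

lemma good_exp : Good (fun t u => Real.exp (-t) * Real.exp (-u)) := by
  refine ⟨by fun_prop, 1, one_pos, fun t u _ => ?_⟩
  rw [abs_mul, abs_of_pos (Real.exp_pos _), abs_of_pos (Real.exp_pos _), ← Real.exp_add]
  refine le_of_eq ?_
  congr 1; ring

lemma dA_int {x : ℝ} (hx : 0 < x) (n : ℕ) {K : ℝ → ℝ → ℝ} (hK : Good K) :
    (∀ t, Integrable (JJ x n K t)) ∧ Integrable (fun t => ∫ u, JJ x n K t u) ∧
    ∫ t, ∫ u, JJ x n K t u = (n.factorial : ℝ) ^ 2 * dA x n K := by
  exact andreief2 (fun (i : Fin n) => ph x i) K (fun t j => hK.inner hx t j)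
    (fun i j => hK.outer hx i j)

/-- the open box -/
def OO (n : ℕ) : Set (Fin n → ℝ) := Set.pi Set.univ fun i => Set.Ioo ((i : ℝ) + 1) ((i : ℝ) + 2)

lemma OO_open (n : ℕ) : IsOpen (OO n) := isOpen_set_pi Set.finite_univ fun _ _ => isOpen_Ioo

lemma OO_pos (n : ℕ) : 0 < (volume : Measure (Fin n → ℝ)) (OO n) := by
  refine (OO_open n).measure_pos _ ⟨fun i => (i : ℝ) + 3 / 2, ?_⟩
  intro i _
  constructor <;> linarith

lemma OO_mem {n : ℕ} {t : Fin n → ℝ} (ht : t ∈ OO n) : (∀ i, 0 < t i) ∧ Function.Injective t := by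
  have h : ∀ i : Fin n, (i : ℝ) + 1 < t i ∧ t i < (i : ℝ) + 2 := fun i => ht i (Set.mem_univ i)
  refine ⟨fun i => ?_, fun i j hij => ?_⟩
  · have := (h i).1
    have h0 : (0 : ℝ) ≤ (i : ℕ) := Nat.cast_nonneg _
    linarith
  · have h1 := h i
    have h2 := h j
    rw [hij] at h1
    have a1 : ((i : ℕ) : ℝ) < ((j : ℕ) : ℝ) + 1 := by linarith [h1.1, h2.2]
    have a2 : ((j : ℕ) : ℝ) < ((i : ℕ) : ℝ) + 1 := by linarith [h1.2, h2.1]
    have b1 : (i : ℕ) < (j : ℕ) + 1 := by exact_mod_cast a1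
    have b2 : (j : ℕ) < (i : ℕ) + 1 := by exact_mod_cast a2
    exact Fin.ext (by omega)

lemma nested_pos {n : ℕ} {J : (Fin n → ℝ) → (Fin n → ℝ) → ℝ} (h0 : ∀ t u, 0 ≤ J t u)
    (h1 : ∀ t, Integrable (J t)) (h2 : Integrable (fun t => ∫ u, J t u))
    (h3 : ∀ t u, t ∈ OO n → u ∈ OO n → 0 < J t u) : 0 < ∫ t, ∫ u, J t u := by
  have key : ∀ f : (Fin n → ℝ) → ℝ, (∀ u, 0 ≤ f u) → Integrable f → (∀ u ∈ OO n, 0 < f u) →
      0 < ∫ u, f u := by
    intro f hf0 hf1 hf2
    rw [integral_pos_iff_support_of_nonneg hf0 hf1]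
    refine lt_of_lt_of_le (OO_pos n) (measure_mono ?_)
    intro u hu
    exact (hf2 u hu).ne'
  refine key _ (fun t => integral_nonneg (h0 t)) h2 fun t ht => ?_
  exact key _ (h0 t) (h1 t) fun u hu => h3 t u ht hu

lemma dA_fer_pos {x : ℝ} (hx : 0 < x) (n : ℕ) {c : ℝ} (hc : 0 < c) :
    0 < eps n * dA x n (fun t u => fer (c * t + c * u)) := by
  obtain ⟨h1, h2, h3⟩ := dA_int hx n (good_fer hc)
  have h4 : 0 < ∫ t, ∫ u, eps n * JJ x n (fun t u => fer (c * t + c * u)) t u := by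
    refine nested_pos (fun t u => eps_JJ_nonneg hc t u) (fun t => (h1 t).const_mul _) ?_ ?_
    · simp only [integral_const_mul]
      exact h2.const_mul _
    · intro t u ht hu
      exact eps_JJ_pos hc (OO_mem ht).1 (OO_mem hu).1 (OO_mem ht).2 (OO_mem hu).2
  simp only [integral_const_mul] at h4
  rw [h3] at h4
  have h5 : (0 : ℝ) < (n.factorial : ℝ) ^ 2 := by positivity
  have h6 : eps n * ((n.factorial : ℝ) ^ 2 * dA x n (fun t u => fer (c * t + c * u))) =
      (n.factorial : ℝ) ^ 2 * (eps n * dA x n (fun t u => fer (c * t + c * u))) := by ring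
  rw [h6] at h4
  exact (mul_pos_iff_of_pos_left h5).1 h4

lemma JJ_expfer {x : ℝ} {n : ℕ} (t u : Fin n → ℝ) :
    eps n * JJ x n (fun t u => Real.exp (-(t + u)) * fer (t + u)) t u =
      Real.exp (-(∑ i, t i + ∑ i, u i)) * (eps n * JJ x n (fun t u => fer (1 * t + 1 * u)) t u) := by
  unfold JJ
  simp only [one_mul]
  rw [det_exp_fer]
  ring

lemma dA_expfer_pos {x : ℝ} (hx : 0 < x) (n : ℕ) :
    0 < eps n * dA x n (fun t u => Real.exp (-(t + u)) * fer (t + u)) := by
  obtain ⟨h1, h2, h3⟩ := dA_int hx n good_expfer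
  have h4 : 0 < ∫ t, ∫ u, eps n * JJ x n (fun t u => Real.exp (-(t + u)) * fer (t + u)) t u := by
    refine nested_pos (fun t u => ?_) (fun t => (h1 t).const_mul _) ?_ ?_
    · rw [JJ_expfer]
      exact mul_nonneg (Real.exp_pos _).le (eps_JJ_nonneg one_pos t u)
    · simp only [integral_const_mul]
      exact h2.const_mul _
    · intro t u ht hu
      rw [JJ_expfer]
      exact mul_pos (Real.exp_pos _)
        (eps_JJ_pos one_pos (OO_mem ht).1 (OO_mem hu).1 (OO_mem ht).2 (OO_mem hu).2)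
  simp only [integral_const_mul] at h4
  rw [h3] at h4
  have h5 : (0 : ℝ) < (n.factorial : ℝ) ^ 2 := by positivity
  have h6 : eps n * ((n.factorial : ℝ) ^ 2 * dA x n (fun t u => Real.exp (-(t + u)) * fer (t + u))) =
      (n.factorial : ℝ) ^ 2 * (eps n * dA x n (fun t u => Real.exp (-(t + u)) * fer (t + u))) := by ring
  rw [h6] at h4
  exact (mul_pos_iff_of_pos_left h5).1 h4

lemma dA_comp {x : ℝ} (hx : 0 < x) (n : ℕ) :
    (1 + 2 / ((n : ℝ) + 1)) ^ (n * (n - 1)) *
      (eps n * dA x n (fun t u => Real.exp (-(t + u)) * fer (t + u))) ≤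
      eps n * dA x n (fun t u => fer ((1 + 2 / ((n : ℝ) + 1)) * t + (1 + 2 / ((n : ℝ) + 1)) * u)) := by
  have hμ0 : 0 < 1 + 2 / ((n : ℝ) + 1) := by positivity
  obtain ⟨h1, h2, h3⟩ := dA_int hx n good_expfer
  obtain ⟨h1', h2', h3'⟩ := dA_int hx n (good_fer hμ0)
  set μ : ℝ := 1 + 2 / ((n : ℝ) + 1) with hμd
  have h4 : ∫ t, ∫ u, μ ^ (n * (n - 1)) *
      (eps n * JJ x n (fun t u => Real.exp (-(t + u)) * fer (t + u)) t u) ≤
      ∫ t, ∫ u, eps n * JJ x n (fun t u => fer (μ * t + μ * u)) t u := by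
    refine integral_mono ?_ ?_ fun t => ?_
    · simp only [integral_const_mul]
      exact (h2.const_mul _).const_mul _
    · simp only [integral_const_mul]
      exact h2'.const_mul _
    · refine integral_mono (((h1 t).const_mul _).const_mul _) ((h1' t).const_mul _) fun u => ?_
      exact JJ_comp t u
  simp only [integral_const_mul] at h4
  rw [h3, h3'] at h4
  have h5 : (0 : ℝ) < (n.factorial : ℝ) ^ 2 := by positivity
  have h7 : (n.factorial : ℝ) ^ 2 * (μ ^ (n * (n - 1)) *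
      (eps n * dA x n (fun t u => Real.exp (-(t + u)) * fer (t + u)))) ≤
      (n.factorial : ℝ) ^ 2 * (eps n * dA x n (fun t u => fer (μ * t + μ * u))) := by
    calc _ = _ := by ring
      _ ≤ _ := h4
      _ = _ := by ring
  exact le_of_mul_le_mul_left h7 h5

end Pool.Agent.Helper630.Eta
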