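import Pool.Agent.Helper630_Eta.Ph

set_option autoImplicit false
open Matrix Finset MeasureTheory Filter Topology

namespace Pool.Agent.Helper630.Eta

/-- nested integral of a kernel against the functions `ph` -/
noncomputable def AK (x : ℝ) (K : ℝ → ℝ → ℝ) (i j : ℕ) : ℝ :=
  ∫ t, ph x i t * ∫ u, K t u * ph x j u

/-- admissible kernels -/
def Good (K : ℝ → ℝ → ℝ) : Prop :=
  Measurable (fun p : ℝ × ℝ => K p.1 p.2) ∧
    ∃ c : ℝ, 0 < c ∧ ∀ t u, 0 < u → |K t u| ≤ Real.exp (-(c * (t + u)))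

lemma Good.inner {x : ℝ} (hx : 0 < x) {K : ℝ → ℝ → ℝ} (hK : Good K) (t : ℝ) (j : ℕ) :
    Integrable (fun u => K t u * ph x j u) := by
  obtain ⟨hm, c, hc, hb⟩ := hK
  refine ph_int_le (C := Real.exp (-(c * t))) hx hc j ?_ ?_
  · exact (hm.comp (measurable_const.prodMk measurable_id)).aestronglyMeasurable
  · intro u hu
    rw [← Real.exp_add]
    refine (hb t u hu).trans (le_of_eq ?_)
    congr 1; ring

lemma Good.innerMeas {x : ℝ} {K : ℝ → ℝ → ℝ} (hm : Measurable (fun p : ℝ × ℝ => K p.1 p.2)) (j : ℕ) :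
    AEStronglyMeasurable (fun t => ∫ u, K t u * ph x j u) := by
  have h1 : StronglyMeasurable (fun p : ℝ × ℝ => K p.1 p.2 * ph x j p.2) :=
    (hm.mul ((ph_meas x j).comp measurable_snd)).stronglyMeasurable
  exact (StronglyMeasurable.integral_prod_right (f := fun t u => K t u * ph x j u) h1).aestronglyMeasurable

lemma inner_bd {x c : ℝ} (hx : 0 < x) (hc : 0 < c) {k : ℝ → ℝ} {t : ℝ} (j : ℕ)
    (hb : ∀ u, 0 < u → |k u| ≤ Real.exp (-(c * (t + u)))) :
    |∫ u, k u * ph x j u| ≤ (∫ u, |ph x j u * Real.exp (-(c * u))|) * Real.exp (-(c * t)) := by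
  have h1 : |∫ u, k u * ph x j u| ≤ ∫ u, |ph x j u * Real.exp (-(c * u))| * Real.exp (-(c * t)) := by
    rw [← Real.norm_eq_abs]
    refine norm_integral_le_of_norm_le (((ph_int hx hc j).abs).mul_const _) ?_
    refine Eventually.of_forall fun u => ?_
    by_cases hu : 0 < u
    · rw [norm_mul, Real.norm_eq_abs, Real.norm_eq_abs, abs_mul, abs_of_pos (Real.exp_pos _)]
      have h2 := mul_le_mul_of_nonneg_right (hb u hu) (abs_nonneg (ph x j u))
      refine h2.trans (le_of_eq ?_)
      rw [mul_assoc, ← Real.exp_add, mul_comm]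
      congr 2; ring
    · simp [ph, hu]
  rwa [integral_mul_const] at h1

lemma Good.outer {x : ℝ} (hx : 0 < x) {K : ℝ → ℝ → ℝ} (hK : Good K) (i j : ℕ) :
    Integrable (fun t => ph x i t * ∫ u, K t u * ph x j u) := by
  obtain ⟨hm, c, hc, hb⟩ := hK
  have := ph_int_le (x := x) (C := ∫ u, |ph x j u * Real.exp (-(c * u))|) hx hc i
    (Good.innerMeas (x := x) hm j) (fun t _ => inner_bd hx hc j (hb t))
  refine this.congr (Eventually.of_forall fun t => ?_)
  exact mul_comm _ _

lemma AK_sub {x : ℝ} (hx : 0 < x) {K L : ℝ → ℝ → ℝ} (hK : Good K) (hL : Good L) (i j : ℕ) :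
    AK x (fun t u => K t u - L t u) i j = AK x K i j - AK x L i j := by
  unfold AK
  rw [← integral_sub (hK.outer hx i j) (hL.outer hx i j)]
  congr 1
  funext t
  rw [← mul_sub, ← integral_sub (hK.inner hx t j) (hL.inner hx t j)]
  simp only [sub_mul]

lemma AK_prod {x : ℝ} (a b : ℝ → ℝ) (i j : ℕ) :
    AK x (fun t u => a t * b u) i j = (∫ t, a t * ph x i t) * ∫ u, b u * ph x j u := by
  unfold AK
  simp only [mul_assoc, integral_const_mul]
  rw [← integral_mul_const]
  congr 1
  funext t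
  ring

lemma AK_finsum {x : ℝ} (s : Finset ℕ) (K : ℕ → ℝ → ℝ → ℝ) (c : ℕ → ℝ)
    (h1 : ∀ m ∈ s, ∀ t j, Integrable (fun u => K m t u * ph x j u))
    (h2 : ∀ m ∈ s, ∀ i j, Integrable (fun t => ph x i t * ∫ u, K m t u * ph x j u)) (i j : ℕ) :
    AK x (fun t u => ∑ m ∈ s, c m * K m t u) i j = ∑ m ∈ s, c m * AK x (K m) i j := by
  unfold AK
  have e1 : ∀ t, ∫ u, (∑ m ∈ s, c m * K m t u) * ph x j u = ∑ m ∈ s, c m * ∫ u, K m t u * ph x j u := by
    intro t
    simp only [Finset.sum_mul]
    rw [integral_finsetSum]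
    · refine Finset.sum_congr rfl fun m _ => ?_
      simp only [mul_assoc, integral_const_mul]
    · intro m hm
      simp only [mul_assoc]
      exact (h1 m hm t j).const_mul _
  simp only [e1, Finset.mul_sum]
  rw [integral_finsetSum]
  · refine Finset.sum_congr rfl fun m _ => ?_
    rw [← integral_const_mul]
    congr 1
    funext t
    ring
  · intro m hm
    refine ((h2 m hm i j).const_mul (c m)).congr (Eventually.of_forall fun t => ?_)
    show c m * _ = _
    ring

lemma AK_scale {x μ : ℝ} (hx : 0 < x) (hμ : 0 < μ) {K : ℝ → ℝ → ℝ} (hK : Good K)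
    (j k : ℕ) :
    AK x (fun t u => K (μ * t) (μ * u)) j k =
      (μ ^ (-x)) ^ 2 * ∑ p ∈ range (j + 1), ∑ q ∈ range (k + 1),
        (((-Real.log μ) ^ (j - p) * (j.choose p)) * ((-Real.log μ) ^ (k - q) * (k.choose q))) *
          AK x K p q := by
  unfold AK
  have e1 : ∀ t, ∫ u, K (μ * t) (μ * u) * ph x k u =
      μ ^ (-x) * ∑ q ∈ range (k + 1), ((-Real.log μ) ^ (k - q) * (k.choose q)) *
        ∫ u, K (μ * t) u * ph x q u := by
    intro t
    exact ph_scale hμ k (fun u => K (μ * t) u) (fun q => hK.inner hx (μ * t) q)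
  simp only [e1]
  have e2 : ∀ q, ∫ t, (∫ u, K (μ * t) u * ph x q u) * ph x j t =
      μ ^ (-x) * ∑ p ∈ range (j + 1), ((-Real.log μ) ^ (j - p) * (j.choose p)) *
        ∫ t, (∫ u, K t u * ph x q u) * ph x p t := by
    intro q
    refine ph_scale hμ j (fun t => ∫ u, K t u * ph x q u) (fun p => ?_)
    refine (hK.outer hx p q).congr (Eventually.of_forall fun t => ?_)
    exact mul_comm _ _
  have e3 : ∀ t, ph x j t * (μ ^ (-x) * ∑ q ∈ range (k + 1),
      ((-Real.log μ) ^ (k - q) * (k.choose q)) * ∫ u, K (μ * t) u * ph x q u) =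
      ∑ q ∈ range (k + 1), (μ ^ (-x) * ((-Real.log μ) ^ (k - q) * (k.choose q))) *
        ((∫ u, K (μ * t) u * ph x q u) * ph x j t) := by
    intro t
    rw [Finset.mul_sum, Finset.mul_sum]
    refine Finset.sum_congr rfl fun q _ => ?_
    ring
  simp only [e3]
  have hint : ∀ q, Integrable (fun t => (∫ u, K (μ * t) u * ph x q u) * ph x j t) := by
    intro q
    obtain ⟨hm, c, hc, hb⟩ := hK
    refine ph_int_le (x := x) (C := ∫ u, |ph x q u * Real.exp (-(c * u))|) hx (mul_pos hc hμ) j ?_ ?_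
    · refine Good.innerMeas (x := x) (K := fun t u => K (μ * t) u) ?_ q
      exact hm.comp ((measurable_fst.const_mul μ).prodMk measurable_snd)
    · intro t _
      refine (inner_bd hx hc q (hb (μ * t))).trans (le_of_eq ?_)
      rw [mul_assoc c μ t]
  rw [integral_finsetSum _ (fun q _ => (hint q).const_mul _)]
  simp only [integral_const_mul, e2]
  rw [Finset.sum_comm, Finset.mul_sum]
  refine Finset.sum_congr rfl fun q _ => ?_
  rw [Finset.mul_sum, Finset.mul_sum, Finset.mul_sum]
  refine Finset.sum_congr rfl fun p _ => ?_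
  have : ∫ t, (∫ u, K t u * ph x q u) * ph x p t = ∫ t, ph x p t * ∫ u, K t u * ph x q u := by
    congr 1; funext t; ring
  rw [this]
  ring

lemma AK_tendsto {x : ℝ} (hx : 0 < x) {K : ℝ → ℝ → ℝ} {Kn : ℕ → ℝ → ℝ → ℝ}
    (hm : ∀ n, Measurable (fun p : ℝ × ℝ => Kn n p.1 p.2))
    (hb : ∀ n t u, 0 < t → 0 < u → |Kn n t u| ≤ Real.exp (-(1 * (t + u))))
    (hl : ∀ t u, 0 < t → 0 < u → Tendsto (fun n => Kn n t u) atTop (𝓝 (K t u))) (i j : ℕ) :
    Tendsto (fun n => AK x (Kn n) i j) atTop (𝓝 (AK x K i j)) := by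
  unfold AK
  have h1 : ∀ t, 0 < t → Tendsto (fun n => ∫ u, Kn n t u * ph x j u) atTop
      (𝓝 (∫ u, K t u * ph x j u)) := by
    intro t ht
    refine tendsto_integral_of_dominated_convergence
      (fun u => |ph x j u * Real.exp (-(1 * u))| * Real.exp (-(1 * t))) ?_ ?_ ?_ ?_
    · intro n
      exact (((hm n).comp (measurable_const.prodMk measurable_id)).mul
        (ph_meas x j)).aestronglyMeasurable
    · exact ((ph_int hx one_pos j).abs).mul_const _
    · intro n
      refine Eventually.of_forall fun u => ?_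
      by_cases hu : 0 < u
      · rw [norm_mul, Real.norm_eq_abs, Real.norm_eq_abs, abs_mul, abs_of_pos (Real.exp_pos _)]
        have h2 := mul_le_mul_of_nonneg_right (hb n t u ht hu) (abs_nonneg (ph x j u))
        refine h2.trans (le_of_eq ?_)
        rw [mul_assoc, ← Real.exp_add, mul_comm]
        congr 2; ring
      · simp [ph, hu]
    · refine Eventually.of_forall fun u => ?_
      by_cases hu : 0 < u
      · exact (hl t u ht hu).mul_const _
      · simp [ph, hu]
  refine tendsto_integral_of_dominated_convergence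
    (fun t => (∫ u, |ph x j u * Real.exp (-(1 * u))|) * |ph x i t * Real.exp (-(1 * t))|) ?_ ?_ ?_ ?_
  · intro n
    exact (ph_meas x i).aestronglyMeasurable.mul (Good.innerMeas (x := x) (hm n) j)
  · exact ((ph_int hx one_pos i).abs).const_mul _
  · intro n
    refine Eventually.of_forall fun t => ?_
    by_cases ht : 0 < t
    · rw [norm_mul, Real.norm_eq_abs, Real.norm_eq_abs, abs_mul, abs_of_pos (Real.exp_pos _)]
      have h2 := inner_bd (x := x) (c := 1) (t := t) hx one_pos j (fun u hu => hb n t u ht hu)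
      have h3 := mul_le_mul_of_nonneg_left h2 (abs_nonneg (ph x i t))
      refine h3.trans (le_of_eq ?_)
      ring
    · simp [ph, ht]
  · refine Eventually.of_forall fun t => ?_
    by_cases ht : 0 < t
    · exact (h1 t ht).const_mul _
    · simp [ph, ht]

end Pool.Agent.Helper630.Eta
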