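import Pool.Agent.Helper630_Eta.Ker
import Pool.Agent.Helper630_Eta.Cauchy

set_option autoImplicit false
open Matrix Finset MeasureTheory Filter Topology

namespace Pool.Agent.Helper630.Eta

/-- log moments -/
noncomputable def gg (x : ℝ) (j : ℕ) : ℝ := ∫ u, Real.exp (-u) * ph x j u

lemma gg_int {x : ℝ} (hx : 0 < x) (q : ℕ) : Integrable (fun u => Real.exp (-u) * ph x q u) := by
  refine (ph_int hx one_pos q).congr (Eventually.of_forall fun u => ?_)
  show ph x q u * Real.exp (-(1 * u)) = _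
  rw [one_mul, mul_comm]

lemma gg_pos {x : ℝ} (hx : 0 < x) : 0 < gg x 0 := by
  unfold gg
  have h1 : ∫ u, Real.exp (-u) * ph x 0 u = ∫ u in Set.Ioi (0 : ℝ), Real.exp (-u) * u ^ (x - 1) := by
    rw [← integral_indicator measurableSet_Ioi]
    congr 1
    funext u
    by_cases hu : 0 < u
    · rw [Set.indicator_of_mem (show u ∈ Set.Ioi (0 : ℝ) from hu)]
      simp [ph, hu]
    · rw [Set.indicator_of_notMem (show u ∉ Set.Ioi (0 : ℝ) from hu)]
      simp [ph, hu]
  rw [h1, ← Real.Gamma_eq_integral hx]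
  exact Real.Gamma_pos_of_pos hx

lemma gm {x : ℝ} (hx : 0 < x) (m k : ℕ) :
    ∫ u, Real.exp (-(((m : ℝ) + 1) * u)) * ph x k u =
      ((m : ℝ) + 1) ^ (-x) * ∑ p ∈ range (k + 1), (-Real.log ((m : ℝ) + 1)) ^ p *
        ((k.choose p) * gg x (k - p)) := by
  have hm : (0 : ℝ) < (m : ℝ) + 1 := by positivity
  rw [ph_scale hm k (fun u => Real.exp (-u)) (fun q => gg_int hx q)]
  congr 1
  rw [← Finset.sum_flip]
  refine Finset.sum_congr rfl fun p hp => ?_
  have hp' : p ≤ k := Nat.lt_succ_iff.1 (Finset.mem_range.1 hp)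
  rw [Nat.sub_sub_self hp', Nat.choose_symm hp']
  unfold gg
  ring

lemma fer_pos (v : ℝ) : 0 < fer v := by unfold fer; positivity

lemma fer_le (v : ℝ) : fer v ≤ Real.exp (-v) := by
  unfold fer
  rw [Real.exp_neg]
  exact inv_anti₀ (Real.exp_pos v) (by linarith [Real.exp_pos v])

lemma fer_meas : Measurable fer := by
  unfold fer
  fun_prop

/-- partial kernels -/
noncomputable def Kn (n : ℕ) (t u : ℝ) : ℝ :=
  ∑ m ∈ range (2 * n), (-1 : ℝ) ^ m * (Real.exp (-(((m : ℝ) + 1) * t)) * Real.exp (-(((m : ℝ) + 1) * u)))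

lemma Kn_eq (n : ℕ) (t u : ℝ) :
    Kn n t u = fer (t + u) * (1 - (Real.exp (-(2 * (t + u)))) ^ n) := by
  have h0 : Real.exp (-(t + u)) ≠ 0 := (Real.exp_pos _).ne'
  have hf : fer (t + u) * (1 + Real.exp (-(t + u))) = Real.exp (-(t + u)) := by
    unfold fer
    have h1 : Real.exp (-(t + u)) * Real.exp (t + u) = 1 := by rw [← Real.exp_add]; simp
    have h2 : Real.exp (t + u) + 1 ≠ 0 := by positivity
    field_simp
    linarith
  induction n with
  | zero => simp [Kn]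
  | succ n ih =>
    have e : Kn (n + 1) t u = Kn n t u + ((Real.exp (-(2 * (t + u)))) ^ n * Real.exp (-(t + u)) -
        (Real.exp (-(2 * (t + u)))) ^ n * Real.exp (-(2 * (t + u)))) := by
      unfold Kn
      rw [show 2 * (n + 1) = 2 * n + 1 + 1 by ring, Finset.sum_range_succ, Finset.sum_range_succ]
      have h1 : (-1 : ℝ) ^ (2 * n) = 1 := by rw [pow_mul]; simp
      have h2 : (-1 : ℝ) ^ (2 * n + 1) = -1 := by rw [pow_succ, h1]; simp
      rw [h1, h2, ← Real.exp_add, ← Real.exp_add, ← Real.exp_nat_mul, ← Real.exp_add, ← Real.exp_add]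
      have a1 : -((((2 * n : ℕ) : ℝ) + 1) * t) + -((((2 * n : ℕ) : ℝ) + 1) * u) =
        (n : ℝ) * -(2 * (t + u)) + -(t + u) := by push_cast; ring
      have a2 : -((((2 * n + 1 : ℕ) : ℝ) + 1) * t) + -((((2 * n + 1 : ℕ) : ℝ) + 1) * u) =
        (n : ℝ) * -(2 * (t + u)) + -(2 * (t + u)) := by push_cast; ring
      rw [a1, a2]
      ring
    rw [e, ih, pow_succ]
    have e2 : Real.exp (-(2 * (t + u))) = Real.exp (-(t + u)) * Real.exp (-(t + u)) := by
      rw [← Real.exp_add]; congr 1; ring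
    rw [e2]
    linear_combination (-(Real.exp (-(t + u)) * Real.exp (-(t + u))) ^ n *
      (1 - Real.exp (-(t + u)))) * hf

lemma Kn_bd (n : ℕ) {t u : ℝ} (ht : 0 < t) (hu : 0 < u) : |Kn n t u| ≤ Real.exp (-(1 * (t + u))) := by
  rw [Kn_eq, one_mul]
  have h1 : Real.exp (-(2 * (t + u))) ≤ 1 := Real.exp_le_one_iff.2 (by linarith)
  have h2 : (Real.exp (-(2 * (t + u)))) ^ n ≤ 1 := pow_le_one₀ (Real.exp_pos _).le h1
  have h3 : 0 ≤ (Real.exp (-(2 * (t + u)))) ^ n := by positivity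
  rw [abs_mul, abs_of_pos (fer_pos _), abs_of_nonneg (by linarith)]
  calc fer (t + u) * (1 - Real.exp (-(2 * (t + u))) ^ n) ≤ fer (t + u) * 1 :=
        mul_le_mul_of_nonneg_left (by linarith) (fer_pos _).le
    _ ≤ _ := by rw [mul_one]; exact fer_le _

lemma Kn_lim {t u : ℝ} (ht : 0 < t) (hu : 0 < u) :
    Tendsto (fun n => Kn n t u) atTop (𝓝 (fer (t + u))) := by
  simp only [Kn_eq]
  have h1 : Real.exp (-(2 * (t + u))) < 1 := Real.exp_lt_one_iff.2 (by linarith)
  have h2 := tendsto_pow_atTop_nhds_zero_of_lt_one (Real.exp_pos (-(2 * (t + u)))).le h1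
  have h3 := (h2.const_sub 1).const_mul (fer (t + u))
  simpa using h3

lemma Kn_meas (n : ℕ) : Measurable (fun p : ℝ × ℝ => Kn n p.1 p.2) := by
  unfold Kn
  fun_prop

lemma ex_int {x : ℝ} (hx : 0 < x) (m q : ℕ) :
    Integrable (fun u => Real.exp (-(((m : ℝ) + 1) * u)) * ph x q u) := by
  refine (ph_int hx (show (0 : ℝ) < (m : ℝ) + 1 by positivity) q).congr
    (Eventually.of_forall fun u => ?_)
  exact mul_comm _ _

lemma AK_Kn {x : ℝ} (hx : 0 < x) (n j k : ℕ) :
    AK x (Kn n) j k = ∑ p ∈ range (j + 1), ∑ q ∈ range (k + 1),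
      ((j.choose p) * gg x (j - p)) * ((k.choose q) * gg x (k - q)) *
      ∑ m ∈ range (2 * n), (-1 : ℝ) ^ m * ((-Real.log ((m : ℝ) + 1)) ^ (p + q) *
      ((m : ℝ) + 1) ^ (-(2 * x))) := by
  have h1 : AK x (Kn n) j k = ∑ m ∈ range (2 * n), (-1 : ℝ) ^ m *
      AK x (fun t u => Real.exp (-(((m : ℝ) + 1) * t)) * Real.exp (-(((m : ℝ) + 1) * u))) j k := by
    have := AK_finsum (x := x) (range (2 * n))
      (fun m t u => Real.exp (-(((m : ℝ) + 1) * t)) * Real.exp (-(((m : ℝ) + 1) * u)))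
      (fun m => (-1 : ℝ) ^ m) ?_ ?_ j k
    · exact this
    · intro m _ t q
      simp only [mul_assoc]
      exact (ex_int hx m q).const_mul _
    · intro m _ p q
      simp only [mul_assoc, integral_const_mul]
      refine ((ex_int hx m p).mul_const (∫ u, Real.exp (-(((m : ℝ) + 1) * u)) * ph x q u)).congr
        (Eventually.of_forall fun t => ?_)
      simp only
      ring
  rw [h1]
  simp only [AK_prod (fun t => Real.exp _) (fun u => Real.exp _), gm hx]
  have h3 : ∀ m : ℕ, (-1 : ℝ) ^ m * ((((m : ℝ) + 1) ^ (-x) * ∑ p ∈ range (j + 1),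
      (-Real.log ((m : ℝ) + 1)) ^ p * ((j.choose p) * gg x (j - p))) *
      (((m : ℝ) + 1) ^ (-x) * ∑ q ∈ range (k + 1),
      (-Real.log ((m : ℝ) + 1)) ^ q * ((k.choose q) * gg x (k - q)))) =
      ∑ p ∈ range (j + 1), ∑ q ∈ range (k + 1),
      ((j.choose p) * gg x (j - p)) * ((k.choose q) * gg x (k - q)) *
      ((-1 : ℝ) ^ m * ((-Real.log ((m : ℝ) + 1)) ^ (p + q) * ((m : ℝ) + 1) ^ (-(2 * x)))) := by
    intro m
    have hm : (0 : ℝ) < (m : ℝ) + 1 := by positivity
    have e1 : ((m : ℝ) + 1) ^ (-(2 * x)) = ((m : ℝ) + 1) ^ (-x) * ((m : ℝ) + 1) ^ (-x) := by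
      rw [← Real.rpow_add hm]; congr 1; ring
    rw [e1, mul_mul_mul_comm, Finset.sum_mul_sum, Finset.mul_sum, Finset.mul_sum]
    refine Finset.sum_congr rfl fun p _ => ?_
    rw [Finset.mul_sum, Finset.mul_sum]
    refine Finset.sum_congr rfl fun q _ => ?_
    rw [pow_add]
    ring
  simp only [h3]
  rw [Finset.sum_comm]
  refine Finset.sum_congr rfl fun p _ => ?_
  rw [Finset.sum_comm]
  refine Finset.sum_congr rfl fun q _ => ?_
  rw [← Finset.mul_sum]

lemma AK_fer {x : ℝ} (hx : 0 < x) {e : ℕ → ℝ}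
    (he : ∀ r, Tendsto (fun n => ∑ m ∈ range (2 * n), (-1 : ℝ) ^ m *
      ((-Real.log ((m : ℝ) + 1)) ^ r * ((m : ℝ) + 1) ^ (-(2 * x)))) atTop (𝓝 (e r))) (j k : ℕ) :
    AK x (fun t u => fer (t + u)) j k = ∑ p ∈ range (j + 1), ∑ q ∈ range (k + 1),
      ((j.choose p) * gg x (j - p)) * ((k.choose q) * gg x (k - q)) * e (p + q) := by
  have h1 := AK_tendsto (K := fun t u => fer (t + u)) (Kn := Kn) hx Kn_meas
    (fun n t u ht hu => Kn_bd n ht hu) (fun t u ht hu => Kn_lim ht hu) j k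
  have h2 : Tendsto (fun n => AK x (Kn n) j k) atTop (𝓝 (∑ p ∈ range (j + 1), ∑ q ∈ range (k + 1),
      ((j.choose p) * gg x (j - p)) * ((k.choose q) * gg x (k - q)) * e (p + q))) := by
    simp only [AK_Kn hx]
    refine tendsto_finsetSum _ fun p _ => tendsto_finsetSum _ fun q _ => ?_
    exact (he (p + q)).const_mul _
  exact tendsto_nhds_unique h1 h2

lemma tri_mul (N : ℕ) (L B : ℕ → ℕ → ℝ) (hL : ∀ j p, j < p → L j p = 0) :
    (Matrix.of fun j k : Fin N => ∑ p ∈ range ((j : ℕ) + 1), ∑ q ∈ range ((k : ℕ) + 1),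
      L j p * L k q * B p q) =
    (Matrix.of fun j p : Fin N => L j p) * (Matrix.of fun p q : Fin N => B p q) *
      (Matrix.of fun j p : Fin N => L j p)ᵀ := by
  ext j k
  simp only [Matrix.mul_apply, Matrix.of_apply, Matrix.transpose_apply]
  have hj : ∀ (j : Fin N) (f : ℕ → ℝ), ∑ p ∈ range ((j : ℕ) + 1), L j p * f p =
      ∑ p : Fin N, L j p * f p := by
    intro j f
    rw [Fin.sum_univ_eq_sum_range (fun p => L j p * f p) N]
    refine Finset.sum_subset ?_ ?_
    · intro p hp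
      rw [Finset.mem_range] at hp ⊢
      omega
    · intro p _ hp
      rw [Finset.mem_range] at hp
      rw [hL j p (by omega), zero_mul]
  have e1 : ∀ p, ∑ q ∈ range ((k : ℕ) + 1), L j p * L k q * B p q = L j p * ∑ q : Fin N, L k q * B p q := by
    intro p
    rw [← hj k (fun q => B p q), Finset.mul_sum]
    refine Finset.sum_congr rfl fun q _ => ?_
    ring
  simp only [e1]
  rw [hj j (fun p => ∑ q : Fin N, L k q * B p q)]
  simp only [Finset.mul_sum, Finset.sum_mul]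
  rw [Finset.sum_comm]
  refine Finset.sum_congr rfl fun q _ => Finset.sum_congr rfl fun p _ => ?_
  ring

lemma tri_det (N : ℕ) (L : ℕ → ℕ → ℝ) (hL : ∀ j p, j < p → L j p = 0) :
    (Matrix.of fun j p : Fin N => L j p).det = ∏ j : Fin N, L j j := by
  rw [Matrix.det_of_isLowerTriangular]
  · rfl
  · intro i j hij
    exact hL _ _ (by simpa using hij)

end Pool.Agent.Helper630.Eta
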