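import Pool.Agent.Helper630_Eta.Andr

set_option autoImplicit false
open Matrix Finset MeasureTheory Filter Topology

namespace Pool.Agent.Helper630.Eta

/-- the functions `(log t)^j t^(x-1)` on the half line -/
noncomputable def ph (x : ℝ) (j : ℕ) (t : ℝ) : ℝ :=
  if 0 < t then Real.log t ^ j * t ^ (x - 1) else 0

lemma ph_meas (x : ℝ) (j : ℕ) : Measurable (ph x j) := by
  unfold ph
  refine Measurable.ite measurableSet_Ioi ?_ measurable_const
  exact (Real.measurable_log.pow_const j).mul (measurable_id.pow_const (x - 1))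

lemma abs_log_le {ε t : ℝ} (hε : 0 < ε) (ht : 0 < t) :
    |Real.log t| ≤ (t ^ ε + t ^ (-ε)) / ε := by
  have h1 := Real.log_le_rpow_div ht.le hε
  have h2 := Real.log_le_rpow_div (inv_nonneg.2 ht.le) hε
  rw [Real.log_inv, Real.inv_rpow ht.le, ← Real.rpow_neg ht.le] at h2
  have h3 : 0 ≤ t ^ ε / ε := by positivity
  have h4 : 0 ≤ t ^ (-ε) / ε := by positivity
  rw [add_div, abs_le]
  constructor <;> linarith

lemma abs_log_pow_le {ε t : ℝ} (hε : 0 < ε) (ht : 0 < t) (j : ℕ) :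
    |Real.log t| ^ j ≤ (2 / ε) ^ j * (t ^ (ε * j) + t ^ (-(ε * j))) := by
  have key : ∀ y : ℝ, 1 ≤ y → ((y + y⁻¹) / ε) ^ j ≤ (2 / ε) ^ j * (y ^ j + (y⁻¹) ^ j) := by
    intro y hy
    have h1 : y⁻¹ ≤ y := le_trans (inv_le_one_of_one_le₀ hy) hy
    have hy0 : 0 < y := by linarith
    have h2 : (y + y⁻¹) / ε ≤ 2 / ε * y := by
      rw [div_mul_eq_mul_div]
      gcongr
      linarith
    calc ((y + y⁻¹) / ε) ^ j ≤ (2 / ε * y) ^ j := by gcongr
      _ = (2 / ε) ^ j * y ^ j := by rw [mul_pow]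
      _ ≤ _ := by
        gcongr
        have : 0 ≤ (y⁻¹) ^ j := by positivity
        linarith
  have h1 : |Real.log t| ^ j ≤ ((t ^ ε + t ^ (-ε)) / ε) ^ j :=
    pow_le_pow_left₀ (abs_nonneg _) (abs_log_le hε ht) j
  refine h1.trans ?_
  rw [Real.rpow_neg ht.le, Real.rpow_neg ht.le, Real.rpow_mul_natCast ht.le, ← inv_pow]
  rcases le_total 1 (t ^ ε) with h | h
  · exact key _ h
  · have hp : 0 < t ^ ε := by positivity
    have := key (t ^ ε)⁻¹ ((one_le_inv₀ hp).2 h)
    rw [inv_inv] at this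
    rw [add_comm (t ^ ε), add_comm ((t ^ ε) ^ j)]
    exact this

lemma rpow_exp_int {s c : ℝ} (hs : -1 < s) (hc : 0 < c) :
    IntegrableOn (fun t : ℝ => t ^ s * Real.exp (-(c * t))) (Set.Ioi 0) := by
  have := integrableOn_rpow_mul_exp_neg_mul_rpow (p := 1) hs zero_lt_one hc
  refine this.congr_fun (fun t _ => ?_) measurableSet_Ioi
  simp

lemma ph_int {x c : ℝ} (hx : 0 < x) (hc : 0 < c) (j : ℕ) :
    Integrable (fun t => ph x j t * Real.exp (-(c * t))) := by
  set ε : ℝ := x / (2 * (j + 1)) with hε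
  have hε0 : 0 < ε := by positivity
  have hj : ε * j < x := by
    rw [hε, div_mul_eq_mul_div, div_lt_iff₀ (by positivity)]
    nlinarith
  have hj0 : 0 ≤ ε * j := by positivity
  have h1 : IntegrableOn (fun t : ℝ => (2 / ε) ^ j * (t ^ (x - 1 + ε * j) * Real.exp (-(c * t)) +
      t ^ (x - 1 - ε * j) * Real.exp (-(c * t)))) (Set.Ioi 0) :=
    ((rpow_exp_int (by linarith) hc).add (rpow_exp_int (by linarith) hc)).const_mul _
  rw [← integrable_indicator_iff measurableSet_Ioi] at h1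
  refine h1.mono' (((ph_meas x j).mul (by fun_prop)).aestronglyMeasurable) ?_
  refine Eventually.of_forall fun t => ?_
  unfold ph
  by_cases ht : 0 < t
  · rw [if_pos ht, Set.indicator_of_mem (show t ∈ Set.Ioi (0 : ℝ) from ht), Real.norm_eq_abs,
      abs_mul, abs_mul, abs_pow, abs_of_pos (Real.exp_pos _), abs_of_pos (Real.rpow_pos_of_pos ht _),
      Real.rpow_add ht, Real.rpow_sub ht (x - 1)]
    have h2 := abs_log_pow_le hε0 ht j
    rw [Real.rpow_neg ht.le (ε * j)] at h2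
    have h3 : 0 ≤ t ^ (x - 1) * Real.exp (-(c * t)) := by positivity
    calc |Real.log t| ^ j * t ^ (x - 1) * Real.exp (-(c * t))
        = |Real.log t| ^ j * (t ^ (x - 1) * Real.exp (-(c * t))) := by ring
      _ ≤ ((2 / ε) ^ j * (t ^ (ε * ↑j) + (t ^ (ε * ↑j))⁻¹)) * (t ^ (x - 1) * Real.exp (-(c * t))) :=
        mul_le_mul_of_nonneg_right h2 h3
      _ = _ := by ring
  · rw [if_neg ht, Set.indicator_of_notMem (show t ∉ Set.Ioi (0 : ℝ) from ht)]
    simp

lemma ph_int_le {x c C : ℝ} (hx : 0 < x) (hc : 0 < c) (j : ℕ) {h : ℝ → ℝ} (hm : AEStronglyMeasurable h)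
    (hb : ∀ t, 0 < t → |h t| ≤ C * Real.exp (-(c * t))) :
    Integrable (fun t => h t * ph x j t) := by
  refine ((ph_int hx hc j).norm.const_mul C).mono' (hm.mul (ph_meas x j).aestronglyMeasurable) ?_
  refine Eventually.of_forall fun t => ?_
  by_cases ht : 0 < t
  · rw [norm_mul, norm_mul, Real.norm_eq_abs, Real.norm_eq_abs, Real.norm_eq_abs,
      abs_of_pos (Real.exp_pos _)]
    have := mul_le_mul_of_nonneg_right (hb t ht) (abs_nonneg (ph x j t))
    linarith
  · simp [ph, ht]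

lemma ph_scale {x μ : ℝ} (hμ : 0 < μ) (k : ℕ) (h : ℝ → ℝ)
    (hint : ∀ q, Integrable (fun u => h u * ph x q u)) :
    ∫ u, h (μ * u) * ph x k u =
      μ ^ (-x) * ∑ q ∈ range (k + 1), ((-Real.log μ) ^ (k - q) * (k.choose q)) *
        ∫ u, h u * ph x q u := by
  have h1 : ∀ v : ℝ, h v * ph x k (v / μ) = μ ^ (1 - x) * ∑ q ∈ range (k + 1),
      ((-Real.log μ) ^ (k - q) * (k.choose q)) * (h v * ph x q v) := by
    intro v
    by_cases hv : 0 < v
    · simp only [ph, if_pos hv, if_pos (div_pos hv hμ)]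
      rw [Real.log_div hv.ne' hμ.ne', sub_eq_add_neg (Real.log v), add_pow, Real.div_rpow hv.le hμ.le]
      have e1 : μ ^ (1 - x) = (μ ^ (x - 1))⁻¹ := by
        rw [← Real.rpow_neg hμ.le]; congr 1; ring
      rw [e1, Finset.mul_sum, Finset.sum_mul, Finset.mul_sum]
      refine Finset.sum_congr rfl fun q _ => ?_
      ring
    · have hv' : ¬ 0 < v / μ := fun h => hv (by
        have := mul_pos h hμ
        rwa [div_mul_cancel₀ _ hμ.ne'] at this)
      simp [ph, hv, hv']
  have h2 := Measure.integral_comp_mul_left (fun v => h v * ph x k (v / μ)) μ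
  have h3 : ∀ u, h (μ * u) * ph x k (μ * u / μ) = h (μ * u) * ph x k u := by
    intro u
    rw [mul_div_cancel_left₀ _ hμ.ne']
  simp only [h3] at h2
  rw [h2, smul_eq_mul, abs_of_pos (inv_pos.2 hμ)]
  simp only [h1]
  rw [integral_const_mul, integral_finsetSum _ (fun q _ => (hint q).const_mul _)]
  simp only [integral_const_mul]
  rw [← mul_assoc]
  congr 1
  rw [sub_eq_add_neg, Real.rpow_add hμ, Real.rpow_one, ← mul_assoc, inv_mul_cancel₀ hμ.ne', one_mul]

end Pool.Agent.Helper630.Eta
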