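import Pool.Agent.Helper630_Eta.Mat
import Pool.Agent.Helper630_Eta.Dil

set_option autoImplicit false
open Matrix Finset MeasureTheory Filter Topology

namespace Pool.Agent.Helper630.Eta

/-- determinant of the functions `ph` -/
noncomputable def dph (x : ℝ) (n : ℕ) (t : Fin n → ℝ) : ℝ :=
  (Matrix.of fun i j : Fin n => ph x i (t j)).det

/-- the symmetrised integrand -/
noncomputable def JJ (x : ℝ) (n : ℕ) (K : ℝ → ℝ → ℝ) (t u : Fin n → ℝ) : ℝ :=
  dph x n t * ((Matrix.of fun i j : Fin n => K (t i) (u j)).det * dph x n u)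

/-- the sign `(-1)^(n(n-1)/2)` -/
noncomputable def eps (n : ℕ) : ℝ := ∏ i : Fin n, ∏ _j ∈ Ioi i, (-1 : ℝ)

lemma eps_sq (n : ℕ) : eps n * eps n = 1 := by
  unfold eps
  simp only [← Finset.prod_mul_distrib]
  simp

lemma dph_zero {x : ℝ} {n : ℕ} {t : Fin n → ℝ} (h : ¬ ∀ i, 0 < t i) : dph x n t = 0 := by
  push Not at h
  obtain ⟨j, hj⟩ := h
  unfold dph
  refine Matrix.det_eq_zero_of_column_eq_zero j fun i => ?_
  simp [ph, not_lt.2 hj]

lemma dph_eq {x : ℝ} {n : ℕ} {t : Fin n → ℝ} (h : ∀ i, 0 < t i) :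
    dph x n t = (∏ i : Fin n, ∏ j ∈ Ioi i, (Real.log (t j) - Real.log (t i))) *
      ∏ j : Fin n, (t j) ^ (x - 1) := by
  unfold dph
  have h1 : (Matrix.of fun i j : Fin n => ph x i (t j)) =
      (Matrix.vandermonde (fun i => Real.log (t i)))ᵀ * Matrix.diagonal (fun j => (t j) ^ (x - 1)) := by
    ext i j
    rw [Matrix.mul_diagonal]
    simp [ph, h j, Matrix.vandermonde_apply]
  rw [h1, Matrix.det_mul, Matrix.det_transpose, Matrix.det_vandermonde, Matrix.det_diagonal]

lemma pair1 {c s t : ℝ} (hc : 0 < c) (hs : 0 < s) (ht : 0 < t) :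
    0 ≤ (Real.log t - Real.log s) * (Real.exp (c * t) - Real.exp (c * s)) ∧
    (s ≠ t → 0 < (Real.log t - Real.log s) * (Real.exp (c * t) - Real.exp (c * s))) := by
  rcases lt_trichotomy s t with h | h | h
  · have h1 := Real.log_lt_log hs h
    have h2 : Real.exp (c * s) < Real.exp (c * t) := Real.exp_lt_exp.2 (mul_lt_mul_of_pos_left h hc)
    have := mul_pos (sub_pos.2 h1) (sub_pos.2 h2)
    exact ⟨this.le, fun _ => this⟩
  · subst h; simp
  · have h1 := Real.log_lt_log ht h
    have h2 : Real.exp (c * t) < Real.exp (c * s) := Real.exp_lt_exp.2 (mul_lt_mul_of_pos_left h hc)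
    have := mul_pos_of_neg_of_neg (sub_neg.2 h1) (sub_neg.2 h2)
    exact ⟨this.le, fun _ => this⟩

lemma pair2 {c s t : ℝ} (hc : 0 < c) (hs : 0 < s) (ht : 0 < t) :
    0 ≤ (Real.log t - Real.log s) * (-1 * (Real.exp (-(c * t)) - Real.exp (-(c * s)))) ∧
    (s ≠ t → 0 < (Real.log t - Real.log s) * (-1 * (Real.exp (-(c * t)) - Real.exp (-(c * s))))) := by
  rcases lt_trichotomy s t with h | h | h
  · have h1 := Real.log_lt_log hs h
    have h2 : Real.exp (-(c * t)) < Real.exp (-(c * s)) :=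
      Real.exp_lt_exp.2 (neg_lt_neg (mul_lt_mul_of_pos_left h hc))
    have := mul_pos (sub_pos.2 h1) (show 0 < -1 * (Real.exp (-(c * t)) - Real.exp (-(c * s))) by linarith)
    exact ⟨this.le, fun _ => this⟩
  · subst h; simp
  · have h1 := Real.log_lt_log ht h
    have h2 : Real.exp (-(c * s)) < Real.exp (-(c * t)) :=
      Real.exp_lt_exp.2 (neg_lt_neg (mul_lt_mul_of_pos_left h hc))
    have := mul_pos_of_neg_of_neg (sub_neg.2 h1)
      (show -1 * (Real.exp (-(c * t)) - Real.exp (-(c * s))) < 0 by linarith)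
    exact ⟨this.le, fun _ => this⟩

lemma eps_JJ_eq {x c : ℝ} {n : ℕ} {t u : Fin n → ℝ} (ht : ∀ i, 0 < t i) (hu : ∀ i, 0 < u i) :
    eps n * JJ x n (fun t u => fer (c * t + c * u)) t u =
      (∏ i : Fin n, ∏ j ∈ Ioi i,
        (((Real.log (t j) - Real.log (t i)) * (Real.exp (c * t j) - Real.exp (c * t i))) *
        ((Real.log (u j) - Real.log (u i)) * (-1 * (Real.exp (-(c * u j)) - Real.exp (-(c * u i))))))) *
      ((∏ j : Fin n, (t j) ^ (x - 1)) * (∏ j : Fin n, (u j) ^ (x - 1)) *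
        ((∏ i : Fin n, ∏ j : Fin n, (Real.exp (c * t i) + Real.exp (-(c * u j)))⁻¹) *
        ∏ j : Fin n, Real.exp (-(c * u j)))) := by
  unfold JJ
  rw [dph_eq ht, dph_eq hu]
  have := fer_det (fun i => c * t i) (fun i => c * u i)
  rw [this]
  unfold eps
  simp only [Finset.prod_mul_distrib]
  ring

lemma eps_JJ_nonneg {x c : ℝ} (hc : 0 < c) {n : ℕ} (t u : Fin n → ℝ) :
    0 ≤ eps n * JJ x n (fun t u => fer (c * t + c * u)) t u := by
  by_cases ht : ∀ i, 0 < t i
  · by_cases hu : ∀ i, 0 < u i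
    · rw [eps_JJ_eq ht hu]
      refine mul_nonneg (Finset.prod_nonneg fun i _ => Finset.prod_nonneg fun j _ => ?_) ?_
      · exact mul_nonneg (pair1 hc (ht i) (ht j)).1 (pair2 hc (hu i) (hu j)).1
      · have h1 : 0 ≤ ∏ j : Fin n, (t j) ^ (x - 1) :=
          Finset.prod_nonneg fun j _ => Real.rpow_nonneg (ht j).le _
        have h2 : 0 ≤ ∏ j : Fin n, (u j) ^ (x - 1) :=
          Finset.prod_nonneg fun j _ => Real.rpow_nonneg (hu j).le _
        positivity
    · simp [JJ, dph_zero hu]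
  · simp [JJ, dph_zero ht]

lemma eps_JJ_pos {x c : ℝ} (hc : 0 < c) {n : ℕ} {t u : Fin n → ℝ} (ht : ∀ i, 0 < t i)
    (hu : ∀ i, 0 < u i) (ht' : Function.Injective t) (hu' : Function.Injective u) :
    0 < eps n * JJ x n (fun t u => fer (c * t + c * u)) t u := by
  rw [eps_JJ_eq ht hu]
  refine mul_pos (Finset.prod_pos fun i _ => Finset.prod_pos fun j hj => ?_) ?_
  · have hij : i ≠ j := (Finset.mem_Ioi.1 hj).ne
    exact mul_pos ((pair1 hc (ht i) (ht j)).2 (fun h => hij (ht' h)))
      ((pair2 hc (hu i) (hu j)).2 (fun h => hij (hu' h)))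
  · have h1 : 0 < ∏ j : Fin n, (t j) ^ (x - 1) :=
      Finset.prod_pos fun j _ => Real.rpow_pos_of_pos (ht j) _
    have h2 : 0 < ∏ j : Fin n, (u j) ^ (x - 1) :=
      Finset.prod_pos fun j _ => Real.rpow_pos_of_pos (hu j) _
    positivity

lemma det_exp_fer {n : ℕ} (t u : Fin n → ℝ) :
    (Matrix.of fun i j : Fin n => Real.exp (-(t i + u j)) * fer (t i + u j)).det =
      Real.exp (-(∑ i, t i + ∑ i, u i)) * (Matrix.of fun i j : Fin n => fer (t i + u j)).det := by
  have h1 : (Matrix.of fun i j : Fin n => Real.exp (-(t i + u j)) * fer (t i + u j)) =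
      Matrix.diagonal (fun i => Real.exp (-(t i))) * (Matrix.of fun i j : Fin n => fer (t i + u j)) *
      Matrix.diagonal (fun i => Real.exp (-(u i))) := by
    ext i j
    rw [Matrix.mul_diagonal, Matrix.diagonal_mul]
    simp only [Matrix.of_apply]
    rw [neg_add, Real.exp_add]
    ring
  rw [h1, Matrix.det_mul, Matrix.det_mul, Matrix.det_diagonal, Matrix.det_diagonal,
    ← Real.exp_sum, ← Real.exp_sum, neg_add, Real.exp_add, Finset.sum_neg_distrib,
    Finset.sum_neg_distrib]
  ring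

/-- the comparison -/
lemma JJ_comp {x : ℝ} {n : ℕ} (t u : Fin n → ℝ) :
    (1 + 2 / ((n : ℝ) + 1)) ^ (n * (n - 1)) *
      (eps n * JJ x n (fun t u => Real.exp (-(t + u)) * fer (t + u)) t u) ≤
      eps n * JJ x n (fun t u => fer ((1 + 2 / ((n : ℝ) + 1)) * t + (1 + 2 / ((n : ℝ) + 1)) * u)) t u := by
  set μ : ℝ := 1 + 2 / ((n : ℝ) + 1) with hμd
  have hμ : 1 ≤ μ := by
    rw [hμd]
    have : 0 ≤ 2 / ((n : ℝ) + 1) := by positivity
    linarith
  have hμ2 : (μ - 1) * (((n : ℝ) + 1) / 2) = 1 := by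
    rw [hμd]; field_simp; ring
  by_cases ht : ∀ i, 0 < t i
  · by_cases hu : ∀ i, 0 < u i
    · have h1 := fer_det_dil hμ t u (fun i => (ht i).le) (fun i => (hu i).le)
      rw [hμ2, one_mul] at h1
      have h2 : eps n * JJ x n (fun t u => Real.exp (-(t + u)) * fer (t + u)) t u =
          Real.exp (-(∑ i, t i + ∑ i, u i)) * (eps n * JJ x n (fun t u => fer (1 * t + 1 * u)) t u) := by
        unfold JJ
        simp only [one_mul]
        rw [det_exp_fer]
        ring
      have h3 : eps n * JJ x n (fun t u => fer (1 * t + 1 * u)) t u =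
          |dph x n t| * (|(Matrix.of fun i j : Fin n => fer (t i + u j)).det| * |dph x n u|) := by
        have h4 := eps_JJ_nonneg (x := x) (c := 1) one_pos t u
        rw [← abs_of_nonneg h4]
        unfold JJ
        have h5 : |eps n| = 1 := by
          have := congrArg abs (eps_sq n)
          rw [abs_mul, abs_one] at this
          nlinarith [abs_nonneg (eps n)]
        simp only [one_mul, abs_mul, h5]
      have h3' : eps n * JJ x n (fun t u => fer (μ * t + μ * u)) t u =
          |dph x n t| * (|(Matrix.of fun i j : Fin n => fer (μ * t i + μ * u j)).det| * |dph x n u|) := by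
        have h4 := eps_JJ_nonneg (x := x) (c := μ) (by linarith) t u
        rw [← abs_of_nonneg h4]
        unfold JJ
        have h5 : |eps n| = 1 := by
          have := congrArg abs (eps_sq n)
          rw [abs_mul, abs_one] at this
          nlinarith [abs_nonneg (eps n)]
        simp only [one_mul, abs_mul, h5]
      rw [h2, h3, h3']
      have h6 : 0 ≤ |dph x n t| * |dph x n u| := by positivity
      have h7 := mul_le_mul_of_nonneg_left h1 h6
      calc _ = |dph x n t| * |dph x n u| * (μ ^ (n * (n - 1)) *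
          Real.exp (-(∑ i, t i + ∑ i, u i)) * |(Matrix.of fun i j : Fin n => fer (t i + u j)).det|) := by ring
        _ ≤ _ := h7
        _ = _ := by ring
    · simp [JJ, dph_zero hu]
  · simp [JJ, dph_zero ht]

end Pool.Agent.Helper630.Eta
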